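import Pool.Agent.GLB.Defs

/-!
# LNU/BsA: the displacement of the base path   (difficulty 2)

`v = (a, b, d)`.  `d + n c = ±1`, so `gcd (c, d) = 1`.  `hz1 v (o₁, o₂, c) = d o₂ - b c`: choose `o₂` (large, of the sign of `d`) such that it is positive; it is coprime to `d`, because `gcd (b, d) = gcd (c, d) = 1`:
call it `h`.  `hz2 = d o₁ - a c`: since `gcd (d, h) = 1` there is `o₁` with `d o₁ ≡ 1 + a c` modulo `h`; adding multiples of `h` (of the sign of `d`) to `o₁` we may assume that `d o₁ - a c > 0`.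
It is `≡ 1` modulo `h`, so coprime to `h`.
-/

namespace Pool.Agent.LNU

open Pool.Agent.GLB

theorem exists_o {v : ℤ × ℤ × ℤ} (hv : VGood v) {n c : ℤ} (hc : v.2.2 + n * c = 1 ∨ v.2.2 + n * c = -1) :
    ∃ o : ℤ × ℤ × ℤ, o.2.2 = c ∧ 0 < hz1 v o ∧ 0 < hz2 v o ∧ IsCoprime (hz1 v o) (hz2 v o) := by
  obtain ⟨a, b, d⟩ := v
  have h1 : IsCoprime a d := hv.cop1
  have h2 : IsCoprime b d := hv.cop2
  have h3 : d % 2 = 1 := hv.odd
  have hc' : d + n * c = 1 ∨ d + n * c = -1 := hc
  have hd : d ≠ 0 := by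
    rintro rfl
    simp at h3
  have hd2 : 1 ≤ d * d := by
    have := mul_self_pos.2 hd
    omega
  have hdc : IsCoprime d c := by
    rcases hc' with h | h
    · exact ⟨1, n, by linarith⟩
    · exact ⟨-1, -n, by linarith⟩
  have hdbc : IsCoprime d (b * c) := h2.symm.mul_right hdc
  set h : ℤ := d * (d * (|b * c| + 1)) - b * c with hh
  have hpos : 0 < h := by
    have e1 : b * c ≤ |b * c| := le_abs_self _
    have e2 : 0 ≤ |b * c| := abs_nonneg _
    have e3 : |b * c| + 1 ≤ d * d * (|b * c| + 1) := by nlinarith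
    have e4 : d * (d * (|b * c| + 1)) = d * d * (|b * c| + 1) := by ring
    rw [hh, e4]
    linarith
  have hcop : IsCoprime d h := by
    have : h = -(b * c) + d * (d * (|b * c| + 1)) := by rw [hh]; ring
    rw [this]
    exact (IsCoprime.neg_right hdbc).add_mul_left_right _
  obtain ⟨x, y, hxy⟩ := hcop
  set k : ℤ := |y * (1 + a * c)| with hk
  set m : ℤ := k * (d * d) - y * (1 + a * c) with hm
  have hm0 : 0 ≤ m := by
    have e1 : y * (1 + a * c) ≤ k := le_abs_self _
    have e2 : 0 ≤ k := abs_nonneg _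
    have e3 : k ≤ k * (d * d) := by nlinarith
    rw [hm]
    linarith
  have e2 : d * (x * (1 + a * c) + k * h * d) - a * c = 1 + h * m := by
    rw [hm]
    linear_combination (1 + a * c) * hxy
  refine ⟨(x * (1 + a * c) + k * h * d, d * (|b * c| + 1), c), rfl, hpos, ?_, ?_⟩
  · show 0 < d * (x * (1 + a * c) + k * h * d) - a * c
    rw [e2]
    have := mul_nonneg hpos.le hm0
    linarith
  · show IsCoprime h (d * (x * (1 + a * c) + k * h * d) - a * c)
    rw [e2]
    exact ⟨-m, 1, by ring⟩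

end Pool.Agent.LNU
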