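import Pool.Agent.GLB.Yw
import Pool.Agent.GLB.BMo
import Pool.Agent.BAS.BLo

/-!
# LNU/BsB: the base path   (difficulty 3)

`v = (a, b, d)`, `H₁ = hz1 v o`, `H₂ = hz2 v o`.  `S = Real.smoothTransition`, `δ = 1 / (4 (H₁ + H₂))` (`≤ 1/8`), `η = 1 / (2 |d| (H₁ + H₂) + 2)` (`≤ 1/2`, `|d| η (H₁ + H₂) < 1`),
`T ρ = S ((ρ - δ) / (1 - 2 δ))` (`0` for `ρ ≤ δ`, `1` for `ρ ≥ 1 - δ`), `T₁ ρ = S (2 ρ / δ - 1)` (`0` for `ρ ≤ δ/2`, `1` for `ρ ≥ δ`), `T₃ ρ = S (2 (ρ - 1 + δ) / δ)` (`0` for `ρ ≤ 1 - δ`, `1` for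
`ρ ≥ 1 - δ/2`), `A = (1 - T₁) / 2 + η T₁ (1 - T)`, `B = T₃ / 2 + η (1 - T₃) T`, `σ₂ = sign d`, `σ₁ = - sign d`,
`w ρ = T ρ • o + (σ₁ A ρ) e₁ + (σ₂ B ρ) e₂ = (T o₁ + σ₁ A, T o₂ + σ₂ B, T o₃)`,  `n₀ = ((σ₁ - 1) / 2, 0, 0)` (`0` or `-1`), `n₁ = (o₁, o₂ + (σ₂ - 1) / 2, o₃)`.
Heights: `ht1 v (w ρ) = T H₁ + |d| B`, `ht2 v (w ρ) = T H₂ - |d| A`.
* `ht1 v ∘ w` is monotone: `T` is, and so is `B` (`ρ ≤ ρ' ≤ 1 - δ`: `B = η T`; `1 - δ ≤ ρ ≤ ρ'`: `T = 1`, `B = η + (1/2 - η) T₃`).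
* Let `x = (1 - s) w ρ + s ρ o = m + u v` (`0 < ρ < 1`, `0 ≤ s ≤ 1`), `α = hz1 v m = ht1 v x = r H₁ + (1 - s) |d| B`, `β = hz2 v m = ht2 v x = r H₂ - (1 - s) |d| A`, `r = (1 - s) T + s ρ`.
  (i) `α = 0` implies `d ∣ β` (`d m₂ = b m₃`, `gcd (b, d) = 1`, so `d ∣ m₃`, `β = d m₁ - a m₃`); `β = 0` implies `d ∣ α`; the same for `m - o`: `β = H₂` implies `d ∣ α - H₁`.
  (ii) `ρ ≤ δ`: `T = T₃ = 0`, `B = 0`, `0 ≤ α = s ρ H₁ ≤ 1/4`: `α = 0`, `s = 0`, `β = - |d| A`, so `A ∈ Z`; but `0 < A ≤ 1/2`.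
  (iii) `ρ ≥ 1 - δ`: `T = T₁ = 1`, `A = 0`, `β = (1 - s (1 - ρ)) H₂`, `H₂ - 1/4 ≤ β ≤ H₂`, so `s (1 - ρ) = 0`, `s = 0`, `α = H₁ + |d| B`, `B ∈ Z`; but `0 < B ≤ 1/2`.
  (iv) `δ < ρ < 1 - δ`: `T₁ = 1`, `T₃ = 0`, `A = η (1 - T)`, `B = η T`: `0 ≤ α H₂ - β H₁ = (1 - s) |d| η (T H₂ + (1 - T) H₁) < 1`, so it is `0`, and `s = 1`; then `α = ρ H₁`, `β = ρ H₂`, `H₁ ∣ α H₂`,
  so `H₁ ∣ α` (coprime), `ρ ∈ Z`: contradiction.
* `avoid`: for `0 < ρ < 1` it is the case `s = 0`; `w` is constant for `ρ ≤ δ/2` and for `ρ ≥ 1 - δ/2`.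
-/

open scoped Manifold ContDiff Topology
open Set

namespace Pool.Agent.LNU

open Pool.Agent.GLB
open Pool.Agent.PTH (GPath ht1 ht2)

theorem BsB_half {d : ℤ} (hd : d ≠ 0) {t : ℝ} (h0 : 0 < t) (h1 : t ≤ 1 / 2) {γ : ℤ} (hdv : d ∣ γ)
    (h : |(γ : ℝ)| = |(d : ℝ)| * t) : False := by
  obtain ⟨k, rfl⟩ := hdv
  push_cast at h
  rw [abs_mul] at h
  have hd' : 0 < |(d : ℝ)| := abs_pos.2 (by exact_mod_cast hd)
  have h2 : |(k : ℝ)| = t := mul_left_cancel₀ hd'.ne' h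
  have h3 : (0 : ℝ) < ((|k| : ℤ) : ℝ) := by
    push_cast
    rw [h2]
    exact h0
  have h4 : ((|k| : ℤ) : ℝ) < ((1 : ℤ) : ℝ) := by
    push_cast
    rw [h2]
    linarith
  have h5 : (0 : ℤ) < |k| := by exact_mod_cast h3
  have h6 : |k| < (1 : ℤ) := by exact_mod_cast h4
  omega

theorem BsB_dvd1 {v m : ℤ × ℤ × ℤ} (h : IsCoprime v.2.1 v.2.2) (h0 : hz1 v m = 0) :
    v.2.2 ∣ hz2 v m := by
  unfold hz1 at h0
  unfold hz2
  have h1 : v.2.2 ∣ v.2.1 * m.2.2 := ⟨m.2.1, by linarith⟩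
  have h2 : v.2.2 ∣ m.2.2 := h.symm.dvd_of_dvd_mul_left h1
  exact dvd_sub (dvd_mul_right _ _) (h2.mul_left _)

theorem BsB_dvd2 {v m : ℤ × ℤ × ℤ} (h : IsCoprime v.1 v.2.2) (h0 : hz2 v m = 0) :
    v.2.2 ∣ hz1 v m := by
  unfold hz2 at h0
  unfold hz1
  have h1 : v.2.2 ∣ v.1 * m.2.2 := ⟨m.1, by linarith⟩
  have h2 : v.2.2 ∣ m.2.2 := h.symm.dvd_of_dvd_mul_left h1
  exact dvd_sub (dvd_mul_right _ _) (h2.mul_left _)

theorem base_path {v o : ℤ × ℤ × ℤ} (hv : VGood v) (h1 : 0 < hz1 v o) (h2 : 0 < hz2 v o)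
    (hco : IsCoprime (hz1 v o) (hz2 v o)) :
    ∃ (n₀ n₁ : ℤ × ℤ × ℤ) (σ₁ σ₂ : ℤ) (w : ℝ → ℝ × ℝ × ℝ), (σ₁ = 1 ∨ σ₁ = -1) ∧ (σ₂ = 1 ∨ σ₂ = -1) ∧
      GPath v n₀ n₁ w ∧ Monotone (fun ρ => ht1 v (w ρ)) ∧
      (n₀.1 : ℝ) + 1 / 2 = σ₁ / 2 ∧ n₀.2.1 = 0 ∧ n₀.2.2 = 0 ∧
      n₁.1 = o.1 ∧ (n₁.2.1 : ℝ) + 1 / 2 = o.2.1 + σ₂ / 2 ∧ n₁.2.2 = o.2.2 ∧
      ∀ ρ, 0 < ρ → ρ < 1 → ∀ s ∈ Icc (0 : ℝ) 1, BAS.NotV v ((1 - s) • w ρ + (s * ρ) • BAS.rv o) := by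
  have hd : v.2.2 ≠ 0 := by
    intro h
    have := hv.odd
    rw [h] at this
    simp at this
  obtain ⟨σ, hσ, hσd⟩ : ∃ σ : ℤ, (σ = 1 ∨ σ = -1) ∧ (v.2.2 : ℝ) * σ = |(v.2.2 : ℝ)| := by
    rcases lt_or_gt_of_ne hd with h | h
    · refine ⟨-1, Or.inr rfl, ?_⟩
      have h' : (v.2.2 : ℝ) < 0 := by exact_mod_cast h
      rw [abs_of_neg h']
      push_cast
      ring
    · refine ⟨1, Or.inl rfl, ?_⟩
      have h' : (0 : ℝ) < v.2.2 := by exact_mod_cast h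
      rw [abs_of_pos h']
      push_cast
      ring
  set D : ℝ := |(v.2.2 : ℝ)| with hD
  have hD0 : 0 < D := abs_pos.2 (by exact_mod_cast hd)
  set H₁ : ℝ := (hz1 v o : ℝ) with hH₁
  set H₂ : ℝ := (hz2 v o : ℝ) with hH₂
  have hH1 : 1 ≤ H₁ := by
    have : (1 : ℤ) ≤ hz1 v o := h1
    rw [hH₁]
    exact_mod_cast this
  have hH2 : 1 ≤ H₂ := by
    have : (1 : ℤ) ≤ hz2 v o := h2
    rw [hH₂]
    exact_mod_cast this
  set δ : ℝ := 1 / (4 * (H₁ + H₂)) with hδ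
  have hδ0 : 0 < δ := by positivity
  have hδH : δ * (4 * (H₁ + H₂)) = 1 := by
    rw [hδ]
    exact div_mul_cancel₀ _ (by positivity)
  have hδ8 : δ ≤ 1 / 8 := by nlinarith
  have hδ1 : δ * H₁ ≤ 1 / 4 := by nlinarith
  have hδ2 : δ * H₂ ≤ 1 / 4 := by nlinarith
  set η : ℝ := 1 / (2 * D * (H₁ + H₂) + 2) with hη
  have hη0 : 0 < η := by positivity
  have hηH : η * (2 * D * (H₁ + H₂) + 2) = 1 := by
    rw [hη]
    exact div_mul_cancel₀ _ (by positivity)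
  have hη2 : η ≤ 1 / 2 := by
    have : 0 ≤ η * (2 * D * (H₁ + H₂)) := by positivity
    nlinarith
  have hηD : η * D * (H₁ + H₂) < 1 := by nlinarith
  let S : ℝ → ℝ := Real.smoothTransition
  have hS0 : ∀ x, 0 ≤ S x := Real.smoothTransition.nonneg
  have hS1 : ∀ x, S x ≤ 1 := Real.smoothTransition.le_one
  have hSz : ∀ x, x ≤ 0 → S x = 0 := fun x hx => Real.smoothTransition.zero_of_nonpos hx
  have hSo : ∀ x, 1 ≤ x → S x = 1 := fun x hx => Real.smoothTransition.one_of_one_le hx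
  have hSm : Monotone S := Real.smoothTransition.monotone
  have hSs : ContDiff ℝ ∞ S := Real.smoothTransition.contDiff
  have h12 : 0 < 1 - 2 * δ := by linarith
  let T : ℝ → ℝ := fun ρ => S ((ρ - δ) / (1 - 2 * δ))
  let T₁ : ℝ → ℝ := fun ρ => S (2 * ρ / δ - 1)
  let T₃ : ℝ → ℝ := fun ρ => S (2 * (ρ - 1 + δ) / δ)
  have hTz : ∀ ρ, ρ ≤ δ → T ρ = 0 := fun ρ h => hSz _ (div_nonpos_of_nonpos_of_nonneg (by linarith) h12.le)
  have hTo : ∀ ρ, 1 - δ ≤ ρ → T ρ = 1 := fun ρ h => hSo _ (by rw [le_div_iff₀ h12]; linarith)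
  have hT1z : ∀ ρ, ρ ≤ δ / 2 → T₁ ρ = 0 := fun ρ h => hSz _ (by
    have : 2 * ρ / δ ≤ 1 := by rw [div_le_iff₀ hδ0]; linarith
    linarith)
  have hT1o : ∀ ρ, δ ≤ ρ → T₁ ρ = 1 := fun ρ h => hSo _ (by
    have : 2 ≤ 2 * ρ / δ := by rw [le_div_iff₀ hδ0]; linarith
    linarith)
  have hT3z : ∀ ρ, ρ ≤ 1 - δ → T₃ ρ = 0 := fun ρ h =>
    hSz _ (div_nonpos_of_nonpos_of_nonneg (by linarith) hδ0.le)
  have hT3o : ∀ ρ, 1 - δ / 2 ≤ ρ → T₃ ρ = 1 := fun ρ h => hSo _ (by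
    rw [le_div_iff₀ hδ0]
    linarith)
  have hTm : Monotone T := fun x y hxy => hSm (div_le_div_of_nonneg_right (by linarith) h12.le)
  have hT3m : Monotone T₃ := fun x y hxy => hSm (div_le_div_of_nonneg_right (by linarith) hδ0.le)
  have hT0 : ∀ ρ, 0 ≤ T ρ := fun ρ => hS0 _
  have hT1 : ∀ ρ, T ρ ≤ 1 := fun ρ => hS1 _
  have hT10 : ∀ ρ, 0 ≤ T₁ ρ := fun ρ => hS0 _
  have hT11 : ∀ ρ, T₁ ρ ≤ 1 := fun ρ => hS1 _
  have hT30 : ∀ ρ, 0 ≤ T₃ ρ := fun ρ => hS0 _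
  have hT31 : ∀ ρ, T₃ ρ ≤ 1 := fun ρ => hS1 _
  have hTs : ContDiff ℝ ∞ T := hSs.comp ((contDiff_id.sub contDiff_const).div_const _)
  have hT1s : ContDiff ℝ ∞ T₁ := hSs.comp (((contDiff_const.mul contDiff_id).div_const _).sub contDiff_const)
  have hT3s : ContDiff ℝ ∞ T₃ :=
    hSs.comp ((contDiff_const.mul ((contDiff_id.sub contDiff_const).add contDiff_const)).div_const _)
  let A : ℝ → ℝ := fun ρ => (1 - T₁ ρ) / 2 + η * (T₁ ρ * (1 - T ρ))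
  let B : ℝ → ℝ := fun ρ => T₃ ρ / 2 + η * ((1 - T₃ ρ) * T ρ)
  have hAs : ContDiff ℝ ∞ A := ((contDiff_const.sub hT1s).div_const _).add
    (contDiff_const.mul (hT1s.mul (contDiff_const.sub hTs)))
  have hBs : ContDiff ℝ ∞ B := (hT3s.div_const _).add
    (contDiff_const.mul ((contDiff_const.sub hT3s).mul hTs))
  let w : ℝ → ℝ × ℝ × ℝ := fun ρ => (T ρ * o.1 + (-σ) * A ρ, T ρ * o.2.1 + σ * B ρ, T ρ * o.2.2)
  have hws : ContDiff ℝ ∞ w := ((hTs.mul contDiff_const).add (contDiff_const.mul hAs)).prodMk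
    (((hTs.mul contDiff_const).add (contDiff_const.mul hBs)).prodMk (hTs.mul contDiff_const))
  have hH₁e : H₁ = v.2.2 * o.2.1 - v.2.1 * o.2.2 := by
    rw [hH₁]
    unfold hz1
    push_cast
    ring
  have hH₂e : H₂ = v.2.2 * o.1 - v.1 * o.2.2 := by
    rw [hH₂]
    unfold hz2
    push_cast
    ring
  have hht1 : ∀ ρ, ht1 v (w ρ) = T ρ * H₁ + D * B ρ := by
    intro ρ
    show (v.2.2 : ℝ) * (T ρ * o.2.1 + σ * B ρ) - v.2.1 * (T ρ * o.2.2) = _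
    rw [hH₁e, ← hσd]
    ring
  have hw0 : ∀ ρ ≤ δ / 2, w ρ = (-(σ : ℝ) * (1 / 2), 0, 0) := by
    intro ρ h
    show ((T ρ * o.1 + (-σ) * A ρ, T ρ * o.2.1 + σ * B ρ, T ρ * o.2.2) : ℝ × ℝ × ℝ) = _
    have e1 : A ρ = 1 / 2 := by
      show (1 - T₁ ρ) / 2 + η * (T₁ ρ * (1 - T ρ)) = 1 / 2
      rw [hT1z ρ h]
      ring
    have e2 : B ρ = 0 := by
      show T₃ ρ / 2 + η * ((1 - T₃ ρ) * T ρ) = 0
      rw [hT3z ρ (by linarith), hTz ρ (by linarith)]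
      ring
    rw [e1, e2, hTz ρ (by linarith)]
    simp
  have hw1 : ∀ ρ, 1 - δ / 2 ≤ ρ → w ρ = ((o.1 : ℝ), (o.2.1 : ℝ) + (σ : ℝ) * (1 / 2), (o.2.2 : ℝ)) := by
    intro ρ h
    show ((T ρ * o.1 + (-σ) * A ρ, T ρ * o.2.1 + σ * B ρ, T ρ * o.2.2) : ℝ × ℝ × ℝ) = _
    have e1 : A ρ = 0 := by
      show (1 - T₁ ρ) / 2 + η * (T₁ ρ * (1 - T ρ)) = 0
      rw [hT1o ρ (by linarith), hTo ρ (by linarith)]
      ring
    have e2 : B ρ = 1 / 2 := by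
      show T₃ ρ / 2 + η * ((1 - T₃ ρ) * T ρ) = 1 / 2
      rw [hT3o ρ h]
      ring
    rw [e1, e2, hTo ρ (by linarith)]
    simp
  -- the main lemma
  have main : ∀ ρ, 0 < ρ → ρ < 1 → ∀ s ∈ Icc (0 : ℝ) 1,
      BAS.NotV v ((1 - s) • w ρ + (s * ρ) • BAS.rv o) := by
    intro ρ hρ0 hρ1 s hs u m hm
    obtain ⟨hs0, hs1⟩ := hs
    have c1 : (1 - s) * (T ρ * o.1 + (-σ) * A ρ) + (s * ρ) * (o.1 : ℝ) = m.1 + u * v.1 :=
      congrArg (fun x : ℝ × ℝ × ℝ => x.1) hm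
    have c2 : (1 - s) * (T ρ * o.2.1 + σ * B ρ) + (s * ρ) * (o.2.1 : ℝ) = m.2.1 + u * v.2.1 :=
      congrArg (fun x : ℝ × ℝ × ℝ => x.2.1) hm
    have c3 : (1 - s) * (T ρ * o.2.2) + (s * ρ) * (o.2.2 : ℝ) = m.2.2 + u * v.2.2 :=
      congrArg (fun x : ℝ × ℝ × ℝ => x.2.2) hm
    set r : ℝ := (1 - s) * T ρ + s * ρ with hr
    have hα : ((hz1 v m : ℤ) : ℝ) = r * H₁ + (1 - s) * (D * B ρ) := by
      unfold hz1
      push_cast
      rw [hH₁e, hr, ← hσd]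
      linear_combination (-(v.2.2 : ℝ)) * c2 + (v.2.1 : ℝ) * c3
    have hβ : ((hz2 v m : ℤ) : ℝ) = r * H₂ - (1 - s) * (D * A ρ) := by
      unfold hz2
      push_cast
      rw [hH₂e, hr, ← hσd]
      linear_combination (-(v.2.2 : ℝ)) * c1 + (v.1 : ℝ) * c3
    rcases le_or_gt ρ δ with hρδ | hρδ
    · -- near `0`
      have t0 : T ρ = 0 := hTz ρ hρδ
      have t3 : T₃ ρ = 0 := hT3z ρ (by linarith)
      have hB : B ρ = 0 := by
        show T₃ ρ / 2 + η * ((1 - T₃ ρ) * T ρ) = 0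
        rw [t0, t3]
        ring
      rw [hB, mul_zero, mul_zero, add_zero, hr, t0, mul_zero, zero_add] at hα
      have e1 : 0 ≤ s * ρ * H₁ := by positivity
      have e2 : s * ρ * H₁ ≤ 1 / 4 := by
        have : s * ρ ≤ δ := by nlinarith
        nlinarith
      have e3 : hz1 v m = 0 := by
        have k1 : (-1 : ℝ) < ((hz1 v m : ℤ) : ℝ) := by linarith
        have k2 : ((hz1 v m : ℤ) : ℝ) < 1 := by linarith
        have k3 : (-1 : ℤ) < hz1 v m := by exact_mod_cast k1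
        have k4 : hz1 v m < (1 : ℤ) := by exact_mod_cast k2
        omega
      rw [e3, Int.cast_zero] at hα
      have e4 : s = 0 := by
        rcases mul_eq_zero.1 hα.symm with h | h
        · rcases mul_eq_zero.1 h with h' | h'
          · exact h'
          · linarith
        · linarith
      have e5 := BsB_dvd1 hv.cop2 e3
      rw [hr, t0, e4] at hβ
      have e6 : ((hz2 v m : ℤ) : ℝ) = -(D * A ρ) := by linarith
      have hA0 : 0 < A ρ := by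
        show 0 < (1 - T₁ ρ) / 2 + η * (T₁ ρ * (1 - T ρ))
        rw [t0]
        have := hT10 ρ
        have := hT11 ρ
        rcases (hT11 ρ).eq_or_lt with h | h
        · rw [h]
          linarith
        · have : 0 ≤ η * (T₁ ρ * (1 - 0)) := by
            have := hT10 ρ
            positivity
          linarith
      have hA1 : A ρ ≤ 1 / 2 := by
        show (1 - T₁ ρ) / 2 + η * (T₁ ρ * (1 - T ρ)) ≤ 1 / 2
        rw [t0]
        have := hT10 ρ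
        nlinarith
      refine BsB_half hd hA0 hA1 e5 ?_
      rw [e6, abs_neg, abs_of_pos (mul_pos hD0 hA0)]
    rcases le_or_gt (1 - δ) ρ with hρδ' | hρδ'
    · -- near `1`
      have t0 : T ρ = 1 := hTo ρ hρδ'
      have t1 : T₁ ρ = 1 := hT1o ρ (by linarith)
      have hA : A ρ = 0 := by
        show (1 - T₁ ρ) / 2 + η * (T₁ ρ * (1 - T ρ)) = 0
        rw [t0, t1]
        ring
      rw [hA, mul_zero, mul_zero, sub_zero, hr, t0, mul_one] at hβ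
      have e1 : 0 ≤ s * (1 - ρ) * H₂ := mul_nonneg (mul_nonneg hs0 (by linarith)) (by linarith)
      have e2 : s * (1 - ρ) * H₂ ≤ 1 / 4 := by
        have : s * (1 - ρ) ≤ δ := by nlinarith
        nlinarith
      have e3 : hz2 v m = hz2 v o := by
        have k0 : ((hz2 v m : ℤ) : ℝ) = H₂ - s * (1 - ρ) * H₂ := by rw [hβ]; ring
        have k1 : ((hz2 v o : ℤ) : ℝ) - 1 < ((hz2 v m : ℤ) : ℝ) := by linarith
        have k2 : ((hz2 v m : ℤ) : ℝ) < ((hz2 v o : ℤ) : ℝ) + 1 := by linarith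
        have k3 : hz2 v o - 1 < hz2 v m := by exact_mod_cast k1
        have k4 : hz2 v m < hz2 v o + 1 := by exact_mod_cast k2
        omega
      rw [e3] at hβ
      have e4 : s = 0 := by
        have k0 : s * ((1 - ρ) * H₂) = 0 := by
          have : H₂ = (1 - s + s * ρ) * H₂ := hβ
          linarith
        rcases mul_eq_zero.1 k0 with h | h
        · exact h
        · have : 0 < (1 - ρ) * H₂ := mul_pos (by linarith) (by linarith)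
          linarith
      have e5 : v.2.2 ∣ hz1 v (m.1 - o.1, m.2.1 - o.2.1, m.2.2 - o.2.2) := by
        refine BsB_dvd2 hv.cop1 ?_
        unfold hz2 at e3 ⊢
        simp only
        linarith
      have e5' : v.2.2 ∣ hz1 v m - hz1 v o := by
        have : hz1 v (m.1 - o.1, m.2.1 - o.2.1, m.2.2 - o.2.2) = hz1 v m - hz1 v o := by
          unfold hz1
          simp only
          ring
        rwa [this] at e5
      have e6 : ((hz1 v m - hz1 v o : ℤ) : ℝ) = D * B ρ := by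
        push_cast
        rw [hα, hr, t0, e4]
        ring
      have hB0 : 0 < B ρ := by
        show 0 < T₃ ρ / 2 + η * ((1 - T₃ ρ) * T ρ)
        rw [t0]
        have k0 := hT30 ρ
        rcases (hT31 ρ).eq_or_lt with h | h
        · rw [h]
          norm_num
        · have : 0 < η * ((1 - T₃ ρ) * 1) := mul_pos hη0 (by linarith)
          linarith
      have hB1 : B ρ ≤ 1 / 2 := by
        show T₃ ρ / 2 + η * ((1 - T₃ ρ) * T ρ) ≤ 1 / 2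
        rw [t0]
        have := hT31 ρ
        nlinarith
      refine BsB_half hd hB0 hB1 e5' ?_
      rw [e6, abs_of_pos (mul_pos hD0 hB0)]
    · -- in the middle
      have t1 : T₁ ρ = 1 := hT1o ρ hρδ.le
      have t3 : T₃ ρ = 0 := hT3z ρ hρδ'.le
      have hA : A ρ = η * (1 - T ρ) := by
        show (1 - T₁ ρ) / 2 + η * (T₁ ρ * (1 - T ρ)) = _
        rw [t1]
        ring
      have hB : B ρ = η * T ρ := by
        show T₃ ρ / 2 + η * ((1 - T₃ ρ) * T ρ) = _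
        rw [t3]
        ring
      have hTρ0 := hT0 ρ
      have hTρ1 := hT1 ρ
      have e1 : ((hz1 v m * hz2 v o - hz2 v m * hz1 v o : ℤ) : ℝ) =
          (1 - s) * (η * D * (T ρ * H₂ + (1 - T ρ) * H₁)) := by
        push_cast
        rw [hα, hβ, hA, hB]
        ring
      have e2 : T ρ * H₂ + (1 - T ρ) * H₁ ≤ H₁ + H₂ := by nlinarith
      have e3 : 0 < T ρ * H₂ + (1 - T ρ) * H₁ := by nlinarith
      have e4 : 0 ≤ (1 - s) * (η * D * (T ρ * H₂ + (1 - T ρ) * H₁)) :=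
        mul_nonneg (by linarith) (by positivity)
      have e5 : (1 - s) * (η * D * (T ρ * H₂ + (1 - T ρ) * H₁)) < 1 := by
        have k1 : η * D * (T ρ * H₂ + (1 - T ρ) * H₁) ≤ η * D * (H₁ + H₂) :=
          mul_le_mul_of_nonneg_left e2 (by positivity)
        have k2 : 0 ≤ η * D * (T ρ * H₂ + (1 - T ρ) * H₁) := by positivity
        nlinarith
      rw [← e1] at e4 e5
      have e6 : hz1 v m * hz2 v o - hz2 v m * hz1 v o = 0 := by
        have k3 : (-1 : ℝ) < ((hz1 v m * hz2 v o - hz2 v m * hz1 v o : ℤ) : ℝ) := by linarith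
        have k4 : (-1 : ℤ) < hz1 v m * hz2 v o - hz2 v m * hz1 v o := by exact_mod_cast k3
        have k5 : hz1 v m * hz2 v o - hz2 v m * hz1 v o < (1 : ℤ) := by exact_mod_cast e5
        omega
      rw [e6, Int.cast_zero] at e1
      have e7 : s = 1 := by
        rcases mul_eq_zero.1 e1.symm with h | h
        · linarith
        · have : 0 < η * D * (T ρ * H₂ + (1 - T ρ) * H₁) := by positivity
          linarith
      rw [hr, e7] at hα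
      have e8 : ((hz1 v m : ℤ) : ℝ) = ρ * H₁ := by rw [hα]; ring
      have e9 : hz1 v o ∣ hz1 v m := by
        have : hz1 v o ∣ hz1 v m * hz2 v o := ⟨hz2 v m, by linarith⟩
        exact hco.dvd_of_dvd_mul_right this
      obtain ⟨k, hk⟩ := e9
      rw [hk] at e8
      push_cast at e8
      have e10 : (k : ℝ) = ρ := by
        have : H₁ * k = H₁ * ρ := by rw [e8]; ring
        exact mul_left_cancel₀ (by linarith) this
      have k1 : (0 : ℝ) < k := by rw [e10]; exact hρ0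
      have k2 : (k : ℝ) < 1 := by rw [e10]; exact hρ1
      have k3 : (0 : ℤ) < k := by exact_mod_cast k1
      have k4 : k < (1 : ℤ) := by exact_mod_cast k2
      omega
  have avoid : ∀ ρ, BAS.NotV v (w ρ) := by
    have h01 : ∀ ρ, 0 < ρ → ρ < 1 → BAS.NotV v (w ρ) := by
      intro ρ a1 a2
      have := main ρ a1 a2 0 ⟨le_rfl, zero_le_one⟩
      rwa [sub_zero, one_smul, zero_mul, zero_smul, add_zero] at this
    intro ρ
    rcases le_or_gt ρ 0 with h | h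
    · have : w ρ = w (δ / 2) := by rw [hw0 ρ (by linarith), hw0 (δ / 2) le_rfl]
      rw [this]
      exact h01 _ (by linarith) (by linarith)
    rcases le_or_gt 1 ρ with h' | h'
    · have : w ρ = w (1 - δ / 2) := by rw [hw1 ρ (by linarith), hw1 (1 - δ / 2) le_rfl]
      rw [this]
      exact h01 _ (by linarith) (by linarith)
    · exact h01 ρ h h'
  -- the feet
  obtain ⟨a₁, ha₁⟩ : ∃ a₁ : ℤ, (a₁ : ℝ) + 1 / 2 = -σ / 2 := by
    rcases hσ with h | h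
    · exact ⟨-1, by rw [h]; norm_num⟩
    · exact ⟨0, by rw [h]; norm_num⟩
  obtain ⟨a₂, ha₂⟩ : ∃ a₂ : ℤ, (a₂ : ℝ) + 1 / 2 = σ / 2 := by
    rcases hσ with h | h
    · exact ⟨0, by rw [h]; norm_num⟩
    · exact ⟨-1, by rw [h]; norm_num⟩
  refine ⟨(a₁, 0, 0), (o.1, o.2.1 + a₂, o.2.2), -σ, σ, w, ?_, hσ, ⟨hws, ⟨δ / 2, by linarith, ?_⟩,
    ⟨δ / 2, by linarith, ?_⟩, ?_⟩, ?_, ?_, rfl, rfl, rfl, ?_, rfl, main⟩
  · rcases hσ with h | h <;> rw [h] <;> simp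
  · intro ρ h
    rw [hw0 ρ h]
    refine Prod.ext ?_ (Prod.ext ?_ ?_)
    · show -(σ : ℝ) * (1 / 2) = 1 / 2 + a₁
      linarith
    · simp
    · simp
  · intro ρ h
    rw [hw1 ρ h]
    refine Prod.ext rfl (Prod.ext ?_ rfl)
    show (o.2.1 : ℝ) + σ * (1 / 2) = 1 / 2 + ((o.2.1 + a₂ : ℤ) : ℝ)
    push_cast
    linarith
  · intro ρ s m h
    exact avoid ρ s m h
  · intro x y hxy
    show ht1 v (w x) ≤ ht1 v (w y)
    rw [hht1, hht1]
    have e1 := hTm hxy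
    have e2 := hT3m hxy
    have e3 := hT1 y
    have e4 := hT31 x
    have e5 : B y - B x = (T₃ y - T₃ x) * (1 / 2 - η * T y) + η * ((1 - T₃ x) * (T y - T x)) := by
      show T₃ y / 2 + η * ((1 - T₃ y) * T y) - (T₃ x / 2 + η * ((1 - T₃ x) * T x)) = _
      ring
    have e6 : η * T y ≤ 1 / 2 := by
      have := hT0 y
      nlinarith
    have e7 : 0 ≤ B y - B x := by
      rw [e5]
      refine add_nonneg (mul_nonneg (by linarith) (by linarith))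
        (mul_nonneg hη0.le (mul_nonneg (by linarith) (by linarith)))
    have e8 : T x * H₁ ≤ T y * H₁ := mul_le_mul_of_nonneg_right e1 (by linarith)
    have e9 : D * B x ≤ D * B y := mul_le_mul_of_nonneg_left (by linarith) hD0.le
    linarith
  · show (a₁ : ℝ) + 1 / 2 = ((-σ : ℤ) : ℝ) / 2
    push_cast
    exact ha₁
  · show (((o.2.1 + a₂ : ℤ) : ℝ)) + 1 / 2 = o.2.1 + σ / 2
    push_cast
    linarith

end Pool.Agent.LNU
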