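import Pool.Agent.RSG.GcM
import Pool.Agent.RSG.SphA
import Pool.Agent.RSG.SphB
import Pool.Agent.RSG.ExM
import Pool.Agent.RSG.LDc
import Pool.Agent.CSG.FunBasic
import Pool.Agent.CSG.LDa

/-!
# LNU/Defs: every manifold carried by a linear knot is the 4-sphere, definitions

The double rotation of `ℂ × ℝ ∋ (c2, ht)` about the axis `ht` is null homotopic in `SO(3)`:
`dr s e = R(e) S(s) R(e) S(-s)`, with `R(e) (w, h) = (e w, h)` and `S(s)` = rotation of the plane `(Re w, h)` by the angle `2πs`;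
`dr 0 e = R(e²)`, `dr (1/2) e = id`.
`tw` is the diffeomorphism of `S4` which is `(c1, c2, ht) ↦ (c1, (c̄1/|c1|)² c2, ht)` for `|c1|² ≥ 1/32`, and the identity for `|c1|² ≤ 1/64`.
-/

open scoped Manifold ContDiff
open Complex (I)

namespace Pool.Agent.LNU

open Pool.Agent.RSG (E4 S3 S4 pS3 pS4 ex c1 c2 ht fh)
open Pool.Agent.CSG (stp)

/-- rotation about the real axis -/
def rz (e : ℂ) (p : ℂ × ℝ) : ℂ × ℝ := (e * p.1, p.2)

/-- rotation of the plane `(Re, ht)` by the angle `2πs` -/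
noncomputable def rs (s : ℝ) (p : ℂ × ℝ) : ℂ × ℝ :=
  (⟨Real.cos (2 * Real.pi * s) * p.1.re - Real.sin (2 * Real.pi * s) * p.2, p.1.im⟩,
    Real.sin (2 * Real.pi * s) * p.1.re + Real.cos (2 * Real.pi * s) * p.2)

/-- `R(e) S(s) R(e) S(-s)` -/
noncomputable def dr (s : ℝ) (e : ℂ) (p : ℂ × ℝ) : ℂ × ℝ := rz e (rs s (rz e (rs (-s) p)))

/-- the inverse: `S(s) R(ē) S(-s) R(ē)` -/
noncomputable def dr' (s : ℝ) (e : ℂ) (p : ℂ × ℝ) : ℂ × ℝ :=
  rs s (rz ((starRingEnd ℂ) e) (rs (-s) (rz ((starRingEnd ℂ) e) p)))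

/-- `1/2` for `x ≤ 1/64`, `0` for `x ≥ 1/32` -/
noncomputable def muS (x : ℝ) : ℝ := (1 - stp (1 / 64) (1 / 32) x) / 2

/-- the conjugate direction of `c1` -/
noncomputable def dc (z : S4) : ℂ := (starRingEnd ℂ) (c1 z / ‖c1 z‖)

open Classical in
/-- double twist -/
noncomputable def tw (z : S4) : S4 :=
  if c1 z = 0 then z
  else pS4 (c1 z) (dr (muS (‖c1 z‖ ^ 2)) (dc z) (c2 z, ht z)).1 (dr (muS (‖c1 z‖ ^ 2)) (dc z) (c2 z, ht z)).2

open Classical in
/-- its inverse -/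
noncomputable def tw' (z : S4) : S4 :=
  if c1 z = 0 then z
  else pS4 (c1 z) (dr' (muS (‖c1 z‖ ^ 2)) (dc z) (c2 z, ht z)).1 (dr' (muS (‖c1 z‖ ^ 2)) (dc z) (c2 z, ht z)).2

/-- exchange of `c1` and `c2` -/
noncomputable def sw (z : S4) : S4 := pS4 (c2 z) (c1 z) (ht z)

/-- complex conjugation -/
noncomputable def cjS (z : S4) : S4 := pS4 ((starRingEnd ℂ) (c1 z)) ((starRingEnd ℂ) (c2 z)) (ht z)

/-- the map of the twin, and its inverse -/
noncomputable def phi (z : S4) : S4 := cjS (sw (tw' (sw (tw z))))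
noncomputable def phi' (z : S4) : S4 := tw' (sw (tw (sw (cjS z))))

end Pool.Agent.LNU
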