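import Pool.Agent.LNU.LinU
import Pool.Agent.LNU.BsA
import Pool.Agent.LNU.BsB
import Pool.Agent.GLB.Fin

/-!
# LNU/Fin: everything carried by a monotone path with the right third displacement is the 4-sphere   (difficulty 1)
-/

open scoped Manifold ContDiff Topology
open Set Filter
open Complex (I)

namespace Pool.Agent.LNU

open Pool.Agent.RSG (E4 S3 S4)
open Pool.Agent.PTH
open Pool.Agent.GLB (VGood Mono4 hz1 hz2)

universe u

theorem gcar_S4 (hΓ : CSW.WIn Gam.{u}) {v n₀ n₁ : ℤ × ℤ × ℤ} {w : ℝ → ℝ × ℝ × ℝ} (hv : VGood v)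
    (hw : GPath v n₀ n₁ w) (hm : Mono4 v w) {n : ℤ}
    (hc : v.2.2 + n * (n₁.2.2 - n₀.2.2) = 1 ∨ v.2.2 + n * (n₁.2.2 - n₀.2.2) = -1)
    {X : Type u} [TopologicalSpace X] [ChartedSpace E4 X] [T2Space X] (hX : GCar v n w X) :
    Nonempty (X ≃ₘ⟮𝓡 4, 𝓡 4⟯ S4) := by
  obtain ⟨o, ho, h1, h2, hco⟩ := exists_o hv hc
  obtain ⟨m₀, m₁, σ₁, σ₂, w', hσ₁, hσ₂, hw', hmon, a1, a2, a3, b1, b2, b3, hseg⟩ := base_path hv h1 h2 hco
  have hX' : GCar v n w' X := by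
    refine (Pool.Agent.GLB.gcar_all hΓ hv hw hw' ?_ hm (Or.inl hmon) n X).1 hX
    rw [b3, a3, ho, sub_zero]
  refine base_unique (x₀ := (0, 0, 0)) hσ₁ hσ₂ hw' ?_ a2 a3 ?_ ?_ ?_ hv.cop2 hv.cop1 hco h1.ne' h2.ne' ?_ ?_ hX'
  · simpa using a1
  · simpa using b1
  · simpa using b2
  · simpa using b3
  · rw [ho]; exact hc
  · intro ρ h0 h1 s hs
    have := hseg ρ h0 h1 s hs
    have e : w' ρ - BAS.rv (0, 0, 0) = w' ρ := by
      simp [BAS.rv, Prod.ext_iff]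
    rw [e]
    exact this

end Pool.Agent.LNU
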