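import Pool.Agent.RBM.Defs
import Pool.Agent.RSG.LDc
import Pool.Agent.RSG.GcM
import Pool.Agent.COR.Ger

/-!
# LNU/UnP: uniqueness of the surgered manifold   (difficulty 2)

As RSG/Uniq (copy the proof): `RSG.glue_diffeo` with `U₁ = {p | ¬ OnT κ p}` (open: the torus is the image of the compact set `[0,1] × {0} × [0,1]`, `P` is Hausdorff),
`U₂ = {z | fh z ≠ 0}`, `f₁ = D.A`, `f₂ = D.Q`, `g₁ = D'.A`, `g₂ = D'.Q`.  `h12`: if `D.A p = D.Q z` then `c1 z, c2 z ≠ 0` (`D.disj`), choose phases `l, m, t` of `z` (`COR.phase`), `D.glue`, `D.A_inj` give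
`p = κ (l, 2‖c1‖‖c2‖ ex m, t)`, and `D'.glue` gives `D'.A p = D'.Q z`.
-/

open scoped Manifold ContDiff Topology
open Set Filter
open Complex (I)

namespace Pool.Agent.LNU

open Pool.Agent.RSG (E4 S3 S4 pS3 pS4 ex c1 c2 ht fh)
open Pool.Agent.RBM (ThickT TwinP OnT)

theorem UnP_int {EP : Type*} [NormedAddCommGroup EP] [NormedSpace ℝ EP] {HP : Type*} [TopologicalSpace HP]
    {IP : ModelWithCorners ℝ EP HP} {P : Type*} [TopologicalSpace P] [ChartedSpace HP P]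
    {κ : ℝ × ℂ × ℝ → P} (hκ : ThickT IP κ) (l t : ℝ) (v : ℂ) (a b : ℤ) :
    κ (l + a, v, t + b) = κ (l, v, t) := by
  have h1 : Function.Periodic (fun l => κ (l, v, t + b)) 1 := fun l => hκ.perl l v _
  have h2 : Function.Periodic (fun t => κ (l, v, t)) 1 := fun t => hκ.pert l v t
  have h3 := h1.int_mul a l
  have h4 := h2.int_mul b t
  simp only [mul_one] at h3 h4
  exact h3.trans h4

theorem UnP_closed {EP : Type*} [NormedAddCommGroup EP] [NormedSpace ℝ EP] {HP : Type*} [TopologicalSpace HP]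
    {IP : ModelWithCorners ℝ EP HP} {P : Type*} [TopologicalSpace P] [ChartedSpace HP P] [T2Space P]
    {κ : ℝ × ℂ × ℝ → P} (hκ : ThickT IP κ) : IsClosed {p | OnT κ p} := by
  have e : {p | OnT κ p} = (fun x : ℝ × ℝ => κ (x.1, 0, x.2)) '' (Icc (0 : ℝ) 1 ×ˢ Icc (0 : ℝ) 1) := by
    ext p
    constructor
    · rintro ⟨l, t, rfl⟩
      refine ⟨(Int.fract l, Int.fract t), ⟨⟨Int.fract_nonneg l, (Int.fract_lt_one l).le⟩,
        ⟨Int.fract_nonneg t, (Int.fract_lt_one t).le⟩⟩, ?_⟩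
      have := UnP_int hκ (Int.fract l) (Int.fract t) 0 ⌊l⌋ ⌊t⌋
      rw [Int.fract_add_floor, Int.fract_add_floor] at this
      exact this.symm
    · rintro ⟨⟨l, t⟩, -, rfl⟩
      exact ⟨l, t, rfl⟩
  rw [e]
  apply IsCompact.isClosed
  apply (isCompact_Icc.prod isCompact_Icc).image
  rw [continuous_iff_continuousAt]
  rintro ⟨l, t⟩
  have h1 : ContinuousAt κ (l, 0, t) := Pool.Agent.CSG.ld_continuousAt (hκ.loc l 0 t (by simp))
  exact ContinuousAt.comp (g := κ) (f := fun x : ℝ × ℝ => (x.1, (0 : ℂ), x.2)) h1 (by fun_prop)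

theorem UnP_iff {EP : Type*} [NormedAddCommGroup EP] [NormedSpace ℝ EP] {HP : Type*} [TopologicalSpace HP]
    {IP : ModelWithCorners ℝ EP HP} {P : Type*} [TopologicalSpace P] [ChartedSpace HP P]
    {κ : ℝ × ℂ × ℝ → P} {n j : ℤ}
    {X : Type*} [TopologicalSpace X] [ChartedSpace E4 X] (D : TwinP IP κ n j X) {p p' : P}
    (hp : ¬ OnT κ p) (hp' : ¬ OnT κ p') : D.A p = D.A p' ↔ p = p' :=
  ⟨D.A_inj p p' hp hp', fun h => by rw [h]⟩

theorem UnP_mix {EP : Type*} [NormedAddCommGroup EP] [NormedSpace ℝ EP] {HP : Type*} [TopologicalSpace HP]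
    {IP : ModelWithCorners ℝ EP HP} {P : Type*} [TopologicalSpace P] [ChartedSpace HP P]
    {κ : ℝ × ℂ × ℝ → P} {n j : ℤ} (hκ : ThickT IP κ)
    {X : Type*} [TopologicalSpace X] [ChartedSpace E4 X] {Y : Type*} [TopologicalSpace Y] [ChartedSpace E4 Y]
    (D : TwinP IP κ n j X) (D' : TwinP IP κ n j Y) {p : P} {z : S4}
    (hp : ¬ OnT κ p) (hz : fh z ≠ 0) (he : D.A p = D.Q z) : D'.A p = D'.Q z := by
  by_cases hc : c1 z = 0 ∨ c2 z = 0
  · exact absurd he.symm (D.disj z p hz hc hp)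
  · rw [not_or] at hc
    obtain ⟨l, m, t', e1, e2, e3⟩ := Pool.Agent.COR.phase n j z
    have hg := D.glue z l m t' hz hc.1 hc.2 e1 e2 e3
    have hg' := D'.glue z l m t' hz hc.1 hc.2 e1 e2 e3
    have hv1 := Pool.Agent.RSG.glue_norm hz m
    have hv0 : ((2 * ‖c1 z‖ * ‖c2 z‖ : ℝ) : ℂ) * ex m ≠ 0 := by
      apply mul_ne_zero _ (Pool.Agent.RSG.ex_ne m)
      have := norm_pos_iff.2 hc.1
      have := norm_pos_iff.2 hc.2
      exact_mod_cast (by positivity : (2 * ‖c1 z‖ * ‖c2 z‖ : ℝ) ≠ 0)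
    have hk : ¬ OnT κ (κ (l, ((2 * ‖c1 z‖ * ‖c2 z‖ : ℝ) : ℂ) * ex m, t')) := by
      rintro ⟨l', s', hl'⟩
      exact hv0 (hκ.inj _ _ _ _ _ _ hv1 (by simp) hl').1
    rw [hg] at he
    rw [hg']
    exact (UnP_iff D' hp hk).2 ((UnP_iff D hp hk).1 he)

theorem uniqP {EP : Type*} [NormedAddCommGroup EP] [NormedSpace ℝ EP] {HP : Type*} [TopologicalSpace HP]
    {IP : ModelWithCorners ℝ EP HP} {P : Type*} [TopologicalSpace P] [ChartedSpace HP P] [T2Space P]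
    {κ : ℝ × ℂ × ℝ → P} {n j : ℤ} (hκ : ThickT IP κ)
    {X : Type*} [TopologicalSpace X] [ChartedSpace E4 X] {Y : Type*} [TopologicalSpace Y] [ChartedSpace E4 Y]
    (D : TwinP IP κ n j X) (D' : TwinP IP κ n j Y) : Nonempty (X ≃ₘ⟮𝓡 4, 𝓡 4⟯ Y) := by
  refine Pool.Agent.RSG.glue_diffeo (I := IP) (I' := 𝓡 4) (J := 𝓡 4)
    (U₁ := {p : P | ¬ OnT κ p}) (U₂ := {z : S4 | fh z ≠ 0})
    (f₁ := D.A) (f₂ := D.Q) (g₁ := D'.A) (g₂ := D'.Q) ?_ ?_ ?_ ?_ ?_ ?_ ?_ ?_ ?_ ?_ ?_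
  · exact (UnP_closed hκ).isOpen_compl
  · exact isOpen_ne.preimage Pool.Agent.RSG.fh_smooth.continuous
  · intro p hp
    exact D.A_loc p hp
  · intro z hz
    exact D.Q_loc z hz
  · intro p hp
    exact D'.A_loc p hp
  · intro z hz
    exact D'.Q_loc z hz
  · intro p hp p' hp'
    rw [UnP_iff D hp hp', UnP_iff D' hp hp']
  · intro p hp z hz
    exact ⟨UnP_mix hκ D D' hp hz, UnP_mix hκ D' D hp hz⟩
  · intro z hz z' hz'
    constructor
    · intro he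
      rw [D.Q_inj z z' hz hz' he]
    · intro he
      rw [D'.Q_inj z z' hz hz' he]
  · intro q
    rcases D.cover q with ⟨p, hp, hq⟩ | ⟨z, hz, hq⟩
    · exact Or.inl ⟨p, hp, hq⟩
    · exact Or.inr ⟨z, hz, hq⟩
  · intro q
    rcases D'.cover q with ⟨p, hp, hq⟩ | ⟨z, hz, hq⟩
    · exact Or.inl ⟨p, hp, hq⟩
    · exact Or.inr ⟨z, hz, hq⟩

end Pool.Agent.LNU
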