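import Pool.Agent.LNU.MirT
import Pool.Agent.LNU.UnP
import Pool.Agent.COR.CorA
import Pool.Agent.BAS.BTr
import Pool.Agent.BAS.BFi

/-!
# LNU/LinU: everything carried by a linear knot is the 4-sphere   (difficulty 3)

`lin_unique`.  `c = v + n o`, `ε = c₃ = ±1`, `p = o₁ - ε c₁ o₃`, `q = o₂ - ε c₂ o₃`, `r = ε o₃` as in BAS/BTr (`lin_carries`): `p, q` coprime and nonzero.  `κ₀` from `BAS.exists_tknot`,
`b = mB c₁ c₂ ε ∘ kap κ₀ r n` (`mB c₁ c₂ ε` is a permutation with inverse `mB (-ε c₁) (-ε c₂) ε` by `mB_comp`, `mB_zero`; a local diffeomorphism `mB_ld`).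
 * `b` is thick (`kap_thick`, `COR.ThickT_diffeo`), equivariant for `gact v` (`kap_equiv`, `mB_act`), with core `b (l, 0, 0) = gE (1/2) (o₁ l, o₂ l, o₃ l)` (`kap_core`, `mB_gE`), as in BTr.
 * for every `j`: `Nonempty (TwinP ISP b n j S4)`: `kap_all`, `COR.TwinP_diffeo`.
Let `X` be carried: `κ, j`, `ThickT κ`, equivariant, core `K`, `TwinP κ n j X`.  `COR.core_eq` (`ha = BAS.gact_Act`, `κ' = b`, `φ l = l`) gives `k, σ` and
`TwinP (q ↦ b (q.1, cj σ (q.2.1 ex (k q.1)), q.2.2)) n j X`.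
 * `σ = 1`: `cj 1 v = v`: `COR.frame` gives `TwinP b n (j + k n) X`.
 * `σ = -1`: `b⁻ (l, v, t) = b (l, conj v, t)` is thick, `cj (-1) v = conj v`, so `COR.frame` for `b⁻` gives `TwinP b⁻ n (j + k n) X`, and `COR.mirror0` gives `TwinP b n (1 - (j + k n)) X`.
In both cases `TwinP b n j' X` for some `j'`, and `uniqP` with `TwinP b n j' S4`.
`base_unique`: `BAS.base_iff` (the curve `l ↦ gE (1/2) (l • rv o)` is the linear knot).
-/

open scoped Manifold ContDiff Topology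
open Set Filter
open Complex (I)

namespace Pool.Agent.LNU

open Pool.Agent.RSG (E4 S3 S4 pS3 pS4 ex c1 c2 ht fh)
open Pool.Agent.PTH (SP ISP z1 z2 gE gact Carries Act GPath GCar)
open Pool.Agent.RBM (ThickT TwinP OnT)
open Pool.Agent.BAS (NotV rv kap)

universe u

theorem LinU_cj1 (v : ℂ) : RSG.cj 1 v = v := by
  simp [RSG.cj]

theorem LinU_cjm (v : ℂ) : RSG.cj (-1) v = (starRingEnd ℂ) v := by
  apply Complex.ext <;> simp [RSG.cj]

theorem LinU_conj {EP : Type*} [NormedAddCommGroup EP] [NormedSpace ℝ EP] {HP : Type*} [TopologicalSpace HP]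
    {IP : ModelWithCorners ℝ EP HP} {P : Type*} [TopologicalSpace P] [ChartedSpace HP P] {κ : ℝ × ℂ × ℝ → P}
    (h : ThickT IP κ) : ThickT IP (fun q => κ (q.1, (starRingEnd ℂ) q.2.1, q.2.2)) where
  perl := fun l v t => h.perl l _ t
  pert := fun l v t => h.pert l _ t
  loc := by
    intro l v t hv
    have h1 : ContDiff ℝ ∞ fun q : ℝ × ℂ × ℝ => (q.1, (starRingEnd ℂ) q.2.1, q.2.2) :=
      contDiff_fst.prodMk ((Complex.conjCLE.contDiff.comp (contDiff_fst.comp contDiff_snd)).prodMk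
        (contDiff_snd.comp contDiff_snd))
    have h2 := CSG.ld_of_perm (f := (⟨fun q : ℝ × ℂ × ℝ => (q.1, (starRingEnd ℂ) q.2.1, q.2.2),
      fun q : ℝ × ℂ × ℝ => (q.1, (starRingEnd ℂ) q.2.1, q.2.2), fun q => by simp, fun q => by simp⟩ :
      ℝ × ℂ × ℝ ≃ ℝ × ℂ × ℝ)) h1 h1 (l, v, t)
    exact IsLocalDiffeomorphAt.comp (hf := h2)
      (hg := h.loc l ((starRingEnd ℂ) v) t (by rw [RCLike.norm_conj]; exact hv)) ..
  inj := by
    intro l v t l' v' t' hv hv' he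
    obtain ⟨h1, h2, h3⟩ := h.inj l _ t l' _ t' (by rw [RCLike.norm_conj]; exact hv) (by rw [RCLike.norm_conj]; exact hv') he
    exact ⟨(starRingEnd ℂ).injective h1, h2, h3⟩

theorem lin_unique {v o : ℤ × ℤ × ℤ} {n : ℤ} (hc : v.2.2 + n * o.2.2 = 1 ∨ v.2.2 + n * o.2.2 = -1)
    (hv1 : IsCoprime v.2.1 v.2.2) (hv2 : IsCoprime v.1 v.2.2)
    (h : IsCoprime (v.2.2 * o.2.1 - v.2.1 * o.2.2) (v.2.2 * o.1 - v.1 * o.2.2))
    (h1 : v.2.2 * o.2.1 - v.2.1 * o.2.2 ≠ 0) (h2 : v.2.2 * o.1 - v.1 * o.2.2 ≠ 0)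
    {X : Type u} [TopologicalSpace X] [ChartedSpace E4 X]
    (hX : Carries ISP (gact v) n (fun l => gE (1 / 2) (o.1 * l, o.2.1 * l, o.2.2 * l)) X) :
    Nonempty (X ≃ₘ⟮𝓡 4, 𝓡 4⟯ S4) := by
  have hact := BAS.gact_Act hv1 hv2
  obtain ⟨v1, v2, v3⟩ := v
  obtain ⟨o1, o2, o3⟩ := o
  simp only at hc h h1 h2 hX ⊢
  obtain ⟨ε, hεd⟩ : ∃ ε : ℤ, ε = v3 + n * o3 := ⟨_, rfl⟩
  rw [← hεd] at hc
  have hee : ε * ε = 1 := by rcases hc with h | h <;> rw [h] <;> norm_num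
  obtain ⟨p, hp⟩ : ∃ p : ℤ, p = o1 - ε * (v1 + n * o1) * o3 := ⟨_, rfl⟩
  obtain ⟨q, hq⟩ : ∃ q : ℤ, q = o2 - ε * (v2 + n * o2) * o3 := ⟨_, rfl⟩
  have hp' : p = ε * (v3 * o1 - v1 * o3) := by
    have : v3 = ε - n * o3 := by linarith
    rw [hp, this]
    linear_combination (-o1) * hee
  have hq' : q = ε * (v3 * o2 - v2 * o3) := by
    have : v3 = ε - n * o3 := by linarith
    rw [hq, this]
    linear_combination (-o2) * hee
  have hεu : IsUnit ε := IsUnit.of_mul_eq_one ε hee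
  have hε0 : ε ≠ 0 := hεu.ne_zero
  have hpq : IsCoprime p q := by
    rw [hp', hq']
    exact (isCoprime_mul_unit_left hεu _ _).2 h.symm
  have hp0 : p ≠ 0 := by
    rw [hp']
    exact mul_ne_zero hε0 h2
  have hq0 : q ≠ 0 := by
    rw [hq']
    exact mul_ne_zero hε0 h1
  obtain ⟨κ₀, hκ₀⟩ := BAS.exists_tknot hpq hp0 hq0
  let F : Equiv.Perm SP :=
    { toFun := BAS.mB (v1 + n * o1) (v2 + n * o2) ε
      invFun := BAS.mB (-ε * (v1 + n * o1)) (-ε * (v2 + n * o2)) ε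
      left_inv := fun y => by
        rw [BAS.mB_comp, show v1 + n * o1 + ε * (-ε * (v1 + n * o1)) = 0 by
            linear_combination -(v1 + n * o1) * hee,
          show v2 + n * o2 + ε * (-ε * (v2 + n * o2)) = 0 by
            linear_combination -(v2 + n * o2) * hee, hee, BAS.mB_zero]
      right_inv := fun y => by
        rw [BAS.mB_comp, show -ε * (v1 + n * o1) + ε * (v1 + n * o1) = 0 by ring,
          show -ε * (v2 + n * o2) + ε * (v2 + n * o2) = 0 by ring, hee, BAS.mB_zero] }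
  have hF : ∀ y, IsLocalDiffeomorphAt ISP ISP ∞ F y := fun y => BAS.mB_ld _ _ hc y
  have hFa : ∀ y, F y = BAS.mB (v1 + n * o1) (v2 + n * o2) ε y := fun _ => rfl
  obtain ⟨b, hb⟩ : ∃ b : ℝ × ℂ × ℝ → SP, b = fun x => F (kap κ₀ (ε * o3) n x) := ⟨_, rfl⟩
  have hbT : ThickT ISP b := by
    rw [hb]
    exact COR.ThickT_diffeo F hF (BAS.kap_thick hκ₀ _ _)
  have hbE : ∀ l w t, b (l, w, t) = gact (v1, v2, v3) t (b (l, w, 0)) := by
    intro l w t
    rw [hb]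
    simp only
    rw [BAS.kap_equiv hκ₀, hFa, BAS.mB_act, ← hFa]
    congr 1
    refine Prod.ext ?_ (Prod.ext ?_ ?_)
    · simp only
      rw [hp]
      ring
    · simp only
      rw [hq]
      ring
    · simp only
      have : v3 = ε - n * o3 := by linarith
      rw [this]
      linear_combination (-n * o3) * hee
  have hbC : ∀ l, b (l, 0, 0) = gE (1 / 2) (o1 * l, o2 * l, o3 * l) := by
    intro l
    rw [hb]
    simp only
    rw [BAS.kap_core hκ₀, hFa, BAS.mB_gE]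
    congr 1
    simp only
    have e1 : (o1 : ℝ) = p + (v1 + n * o1) * (ε * o3) := by
      rw [hp]
      push_cast
      ring
    have e2 : (o2 : ℝ) = q + (v2 + n * o2) * (ε * o3) := by
      rw [hq]
      push_cast
      ring
    have e3 : (o3 : ℝ) = ε * (ε * o3) := by
      have : ((ε * ε : ℤ) : ℝ) = 1 := by rw [hee]; norm_num
      push_cast at this
      linear_combination -(o3 : ℝ) * this
    refine Prod.ext ?_ (Prod.ext ?_ ?_)
    · simp only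
      push_cast
      linear_combination -l * e1
    · simp only
      push_cast
      linear_combination -l * e2
    · simp only
      push_cast
      linear_combination -l * e3
  have hS : ∀ j : ℤ, Nonempty (TwinP ISP b n j S4) := by
    intro j
    obtain ⟨D⟩ := kap_all hpq hp0 hq0 hκ₀ (ε * o3) n j
    rw [hb]
    exact COR.TwinP_diffeo F hF D
  obtain ⟨κ, j, hT, he, hk, hD⟩ := hX
  obtain ⟨k, σ, hσ, H⟩ := COR.core_eq hact hT he hbT hbE (fun l => by rw [hbC, hk]) (φ := fun l => l)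
    contDiff_id (fun l => rfl)
  have hD' := H X n j hD
  have hfin : ∃ j' : ℤ, Nonempty (TwinP ISP b n j' X) := by
    rcases hσ with rfl | rfl
    · simp only [LinU_cj1] at hD'
      obtain ⟨D⟩ := hD'
      exact ⟨_, COR.frame hbT k D⟩
    · simp only [LinU_cjm] at hD'
      obtain ⟨D⟩ := hD'
      obtain ⟨D1⟩ := COR.frame (κ := fun x => b (x.1, (starRingEnd ℂ) x.2.1, x.2.2)) (LinU_conj hbT) k D
      have D2 := COR.mirror0 (LinU_conj hbT) D1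
      simp only [Complex.conj_conj] at D2
      exact ⟨_, D2⟩
  obtain ⟨j', ⟨D1⟩⟩ := hfin
  obtain ⟨D2⟩ := hS j'
  exact uniqP hbT D1 D2

theorem base_unique {v n₀ n₁ o x₀ : ℤ × ℤ × ℤ} {σ₁ σ₂ n : ℤ} (hσ₁ : σ₁ = 1 ∨ σ₁ = -1) (hσ₂ : σ₂ = 1 ∨ σ₂ = -1)
    {w : ℝ → ℝ × ℝ × ℝ} (hw : GPath v n₀ n₁ w)
    (h01 : (n₀.1 : ℝ) + 1 / 2 = x₀.1 + σ₁ / 2) (h02 : n₀.2.1 = x₀.2.1) (h03 : n₀.2.2 = x₀.2.2)
    (h11 : n₁.1 = x₀.1 + o.1) (h12 : (n₁.2.1 : ℝ) + 1 / 2 = x₀.2.1 + o.2.1 + σ₂ / 2) (h13 : n₁.2.2 = x₀.2.2 + o.2.2)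
    (hv1 : IsCoprime v.2.1 v.2.2) (hv2 : IsCoprime v.1 v.2.2)
    (h : IsCoprime (v.2.2 * o.2.1 - v.2.1 * o.2.2) (v.2.2 * o.1 - v.1 * o.2.2))
    (hn1 : v.2.2 * o.2.1 - v.2.1 * o.2.2 ≠ 0) (hn2 : v.2.2 * o.1 - v.1 * o.2.2 ≠ 0)
    (hc : v.2.2 + n * o.2.2 = 1 ∨ v.2.2 + n * o.2.2 = -1)
    (hseg : ∀ ρ, 0 < ρ → ρ < 1 → ∀ s ∈ Icc (0 : ℝ) 1, NotV v ((1 - s) • (w ρ - rv x₀) + (s * ρ) • rv o))
    {X : Type u} [TopologicalSpace X] [ChartedSpace E4 X] (hX : GCar v n w X) :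
    Nonempty (X ≃ₘ⟮𝓡 4, 𝓡 4⟯ S4) := by
  have h5 := (BAS.base_iff hσ₁ hσ₂ hw h01 h02 h03 h11 h12 h13 hv1 hv2 h hn1 hn2 hseg n X).1 hX
  have h6 : (fun l : ℝ => gE (1 / 2) (l • rv o)) = fun l : ℝ => gE (1 / 2) (o.1 * l, o.2.1 * l, o.2.2 * l) := by
    funext l
    congr 1
    simp only [rv, Prod.smul_mk, smul_eq_mul]
    refine Prod.ext ?_ (Prod.ext ?_ ?_)
    · simp only
      ring
    · simp only
      ring
    · simp only
      ring
  rw [h6] at h5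
  exact lin_unique hc hv1 hv2 h hn1 hn2 h5

end Pool.Agent.LNU
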