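import Pool.Agent.LNU.PhM
import Pool.Agent.BAS.BCg
import Pool.Agent.COR.Frm

/-!
# LNU/Shj: the twist `j` may be changed by 2   (difficulty 3)

`shj`: `BAS.twin_of_collar` with `r₀ = 1/2`, `A₁ = D.A`, `Q z = D.Q (phi z)` and `j + 2`.
* `Q_loc`: `phi_ld`, `phi_fh`, `D.Q_loc`, composition.  `Q_inj`: `D.Q_inj`, `phi'_phi`.
* `A_loc`, `A_inj`: a point which is `Out κ (1/2)` is not on the torus.
* `glue`: `c1 z = ‖c1 z‖ ex (m + (1 - (j + 2)) t)`, `c2 z = ‖c2 z‖ ex (m - (j + 2) t)`: with `x = m - (j + 1) t`, `y = m - (j + 2) t`: `3 x - 2 y = m + (1 - j) t`,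
  `2 x - y = m - j t` (check: `3(m - (j+1) t) - 2 (m - (j+2) t) = m + (-3j - 3 + 2j + 4) t = m + (1 - j) t`; `2 (m - (j+1) t) - (m - (j+2) t) = m - j t`).  So `phi z` has the phases of `j`,
  the same moduli and the same `fh` (`phi_pure`), and `D.glue (phi z) l m t` gives the claim (`c1, c2 ≠ 0` because `1/2 < 2 ‖c1‖ ‖c2‖`).
* `disj`: `2 ‖c1 z‖ ‖c2 z‖ ≤ 1/2`: by `phi_half` also for `phi z`.  Let `D.Q (phi z) = D.A p`, `p` `Out κ (1/2)`.  If `c1 (phi z) = 0` or `c2 (phi z) = 0`: `D.disj`.  Otherwise choose the phases `l, m, t` of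
  `phi z` (`COR.phase` in COR/Ger, for `n, j`) and `D.glue`: `D.Q (phi z) = D.A (κ (l, (2 ‖c1‖ ‖c2‖) ex m, t))`, the point of `κ` is not on the torus (`hκ.inj`, nonzero `v`),
  so by `D.A_inj` `p = κ (l, v, t)`, `‖v‖ ≤ 1/2`: contradiction.
* `cover`: `D.cover q`.  `q = D.Q z`: `z = phi (phi' z)`, `fh (phi' z) ≠ 0`.  `q = D.A p`: if `p` is `Out κ (1/2)` done; otherwise `p = κ (l, v, t)`, `‖v‖ ≤ 1/2`, `v ≠ 0`: by `RSG.Gc_spec` and
  `D.glue`, `D.A p = D.Q (Gc n j (l, v, t))`.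
`shj_all`: induction (`j + 2 k`, `k ≥ 0`), and for negative `k` use `COR.mirror0` twice: `κ` → `κ (l, conj v, t)`, `1 - j` → `1 - j + 2 k'` → `κ`, `j - 2 k'`.
-/

open scoped Manifold ContDiff Topology
open Set Filter
open Complex (I)

namespace Pool.Agent.LNU

open Pool.Agent.RSG (E4 S3 S4 pS3 pS4 ex c1 c2 ht fh)
open Pool.Agent.RBM (ThickT TwinP OnT)

universe u

section
variable {EP : Type*} [NormedAddCommGroup EP] [NormedSpace ℝ EP] {HP : Type*} [TopologicalSpace HP]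
  {IP : ModelWithCorners ℝ EP HP} {P : Type*} [TopologicalSpace P] [ChartedSpace HP P] [T2Space P]
  {κ : ℝ × ℂ × ℝ → P} {X : Type u} [TopologicalSpace X] [ChartedSpace E4 X] {n j : ℤ}

omit [T2Space P] in
theorem Shj_not {p : P} (h : BAS.Out κ (1 / 2) p) : ¬ OnT κ p := by
  rintro ⟨l, t, he⟩
  exact h l 0 t (by rw [norm_zero]; norm_num) he

omit [T2Space P] in
theorem Shj_not' (hκ : ThickT IP κ) {l t : ℝ} {v : ℂ} (hv : v ≠ 0) (hv1 : ‖v‖ < 1) :
    ¬ OnT κ (κ (l, v, t)) := by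
  rintro ⟨l', t', he⟩
  exact hv (hκ.inj l v t l' 0 t' hv1 (by rw [norm_zero]; norm_num) he).1

theorem shj (hκ : ThickT IP κ) (D : TwinP IP κ n j X) : Nonempty (TwinP IP κ n (j + 2) X) := by
  refine BAS.twin_of_collar hκ (n := n) (j := j + 2) (A₁ := D.A) (Q := fun z => D.Q (phi z))
    (r₀ := 1 / 2) (by norm_num) (by norm_num) ?_ ?_ ?_ ?_ ?_ ?_ ?_
  · intro z hz
    exact IsLocalDiffeomorphAt.comp (hf := phi_ld z) (hg := D.Q_loc (phi z) ((phi_fh z).2 hz))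
  · intro z z' hz hz' he
    have h1 := D.Q_inj _ _ ((phi_fh z).2 hz) ((phi_fh z').2 hz') he
    rw [← phi'_phi z, ← phi'_phi z', h1]
  · intro p hp
    exact D.A_loc p (Shj_not hp)
  · intro p p' hp hp' he
    exact D.A_inj p p' (Shj_not hp) (Shj_not hp') he
  · intro z l m t hf hr e1 e2 e3
    obtain ⟨a1, a2, a3, a4, a5⟩ := phi_pure hr.le e1 e2
    have hc1 : c1 z ≠ 0 := by
      intro h0
      rw [h0, norm_zero] at hr
      norm_num at hr
    have hc2 : c2 z ≠ 0 := by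
      intro h0
      rw [h0, norm_zero] at hr
      norm_num at hr
    have hc1' : c1 (phi z) ≠ 0 := by
      rw [← norm_ne_zero_iff, a3, norm_ne_zero_iff]
      exact hc1
    have hc2' : c2 (phi z) ≠ 0 := by
      rw [← norm_ne_zero_iff, a4, norm_ne_zero_iff]
      exact hc2
    have x1 : 3 * (m + (1 - ((j + 2 : ℤ) : ℝ)) * t) - 2 * (m - ((j + 2 : ℤ) : ℝ) * t)
        = m + (1 - (j : ℝ)) * t := by
      push_cast
      ring
    have x2 : 2 * (m + (1 - ((j + 2 : ℤ) : ℝ)) * t) - (m - ((j + 2 : ℤ) : ℝ) * t)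
        = m - (j : ℝ) * t := by
      push_cast
      ring
    rw [x1] at a1
    rw [x2] at a2
    have h1 := D.glue (phi z) l m t (by rw [a5]; exact hf) hc1' hc2' (by rw [a3]; exact a1)
      (by rw [a4]; exact a2) (by rw [a5]; exact e3)
    rw [a3, a4] at h1
    exact h1
  · intro z p hf hr hp he
    have hr' := phi_half hr
    have hf' := (phi_fh z).2 hf
    by_cases h0 : c1 (phi z) = 0 ∨ c2 (phi z) = 0
    · exact D.disj (phi z) p hf' h0 (Shj_not hp) he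
    · rw [not_or] at h0
      obtain ⟨l, m, t, e1, e2, e3⟩ := COR.phase n j (phi z)
      have h1 := D.glue (phi z) l m t hf' h0.1 h0.2 e1 e2 e3
      have hn1 : 0 < ‖c1 (phi z)‖ := norm_pos_iff.2 h0.1
      have hn2 : 0 < ‖c2 (phi z)‖ := norm_pos_iff.2 h0.2
      have hrr : 0 < 2 * ‖c1 (phi z)‖ * ‖c2 (phi z)‖ := by positivity
      have hnv : ‖((2 * ‖c1 (phi z)‖ * ‖c2 (phi z)‖ : ℝ) : ℂ) * ex m‖
          = 2 * ‖c1 (phi z)‖ * ‖c2 (phi z)‖ := by
        rw [norm_mul, RSG.ex_norm, mul_one, Complex.norm_real, Real.norm_of_nonneg hrr.le]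
      have hv0 : ((2 * ‖c1 (phi z)‖ * ‖c2 (phi z)‖ : ℝ) : ℂ) * ex m ≠ 0 := by
        rw [← norm_pos_iff, hnv]
        exact hrr
      have he' : D.Q (phi z) = D.A p := he
      rw [h1] at he'
      have h2 := D.A_inj _ _ (Shj_not' hκ hv0 (by rw [hnv]; linarith)) (Shj_not hp) he'
      exact hp _ _ _ (by rw [hnv]; exact hr') h2.symm
  · intro q
    have hR : ∀ z, fh z ≠ 0 → q = D.Q z → ∃ z, fh z ≠ 0 ∧ q = D.Q (phi z) := by
      intro z hz hq
      refine ⟨phi' z, ?_, ?_⟩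
      · rw [← phi_fh, phi_phi']
        exact hz
      · rw [phi_phi']
        exact hq
    rcases D.cover q with ⟨p, hp, hq⟩ | ⟨z, hz, hq⟩
    · by_cases ho : BAS.Out κ (1 / 2) p
      · exact Or.inl ⟨p, ho, hq⟩
      · right
        unfold BAS.Out at ho
        push Not at ho
        obtain ⟨l, v, t, hv, hpe⟩ := ho
        have hv0 : v ≠ 0 := by
          intro h0
          apply hp
          exact ⟨l, t, by rw [hpe, h0]⟩
        have hvp : 0 < ‖v‖ := norm_pos_iff.2 hv0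
        obtain ⟨hf, b1, b2, hr, e1, e2, e3⟩ := RSG.Gc_spec n j (l := l) (t := t) hv0
          (by linarith : ‖v‖ < 1)
        obtain ⟨m, hm⟩ := RSG.ex_surj (u := v / ‖v‖) (by
          rw [norm_div, Complex.norm_real, norm_norm, div_self hvp.ne'])
        rw [hm, ← RSG.ex_add] at e1 e2
        have h1 := D.glue (RSG.Gc n j (l, v, t)) l m t hf b1 b2 e1 (by
          have x : m - (j : ℝ) * t = m + -(j : ℝ) * t := by ring
          rw [x]
          exact e2) e3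
        have h2 : ((2 * ‖c1 (RSG.Gc n j (l, v, t))‖ * ‖c2 (RSG.Gc n j (l, v, t))‖ : ℝ) : ℂ) * ex m
            = v := by
          rw [hr, ← hm]
          have : ((‖v‖ : ℝ) : ℂ) ≠ 0 := by exact_mod_cast hvp.ne'
          field_simp
        rw [h2, ← hpe] at h1
        exact hR _ hf (hq.trans h1.symm)
    · exact Or.inr (hR z hz hq)

theorem Shj_nat (hκ : ThickT IP κ) (h : Nonempty (TwinP IP κ n j X)) (k : ℕ) :
    Nonempty (TwinP IP κ n (j + 2 * (k : ℤ)) X) := by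
  induction k with
  | zero =>
    have e : j + 2 * ((0 : ℕ) : ℤ) = j := by simp
    rw [e]
    exact h
  | succ k ih =>
    obtain ⟨D⟩ := ih
    have e : j + 2 * ((k + 1 : ℕ) : ℤ) = j + 2 * (k : ℤ) + 2 := by
      push_cast
      ring
    rw [e]
    exact shj hκ D

noncomputable def Shj_cj : (ℝ × ℂ × ℝ) ≃ (ℝ × ℂ × ℝ) where
  toFun q := (q.1, (starRingEnd ℂ) q.2.1, q.2.2)
  invFun q := (q.1, (starRingEnd ℂ) q.2.1, q.2.2)
  left_inv q := Prod.ext rfl (Prod.ext (Complex.conj_conj _) rfl)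
  right_inv q := Prod.ext rfl (Prod.ext (Complex.conj_conj _) rfl)

theorem Shj_cj_smooth : ContDiff ℝ ∞ fun q : ℝ × ℂ × ℝ => (q.1, (starRingEnd ℂ) q.2.1, q.2.2) :=
  contDiff_fst.prodMk ((RSG.GcM_conj_smooth.comp contDiff_snd.fst).prodMk contDiff_snd.snd)

omit [T2Space P] in
theorem Shj_thick (hκ : ThickT IP κ) :
    ThickT IP (fun q : ℝ × ℂ × ℝ => κ (q.1, (starRingEnd ℂ) q.2.1, q.2.2)) where
  perl l v t := hκ.perl l _ t
  pert l v t := hκ.pert l _ t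
  loc l v t hv := by
    have h1 : IsLocalDiffeomorphAt 𝓘(ℝ, ℝ × ℂ × ℝ) 𝓘(ℝ, ℝ × ℂ × ℝ) ∞ Shj_cj (l, v, t) :=
      CSG.ld_of_perm Shj_cj_smooth Shj_cj_smooth _
    exact IsLocalDiffeomorphAt.comp (hf := h1)
      (hg := hκ.loc l ((starRingEnd ℂ) v) t (by rw [RCLike.norm_conj]; exact hv))
  inj l v t l' v' t' hv hv' he := by
    obtain ⟨h1, h2, h3⟩ := hκ.inj l _ t l' _ t' (by rw [RCLike.norm_conj]; exact hv)
      (by rw [RCLike.norm_conj]; exact hv') he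
    refine ⟨?_, h2, h3⟩
    have h4 := congrArg (starRingEnd ℂ) h1
    rwa [Complex.conj_conj, Complex.conj_conj] at h4

theorem shj_all (hκ : ThickT IP κ) (h : Nonempty (TwinP IP κ n j X)) (k : ℤ) :
    Nonempty (TwinP IP κ n (j + 2 * k) X) := by
  obtain ⟨k', rfl | rfl⟩ := k.eq_nat_or_neg
  · exact Shj_nat hκ h k'
  · obtain ⟨D⟩ := h
    have hκ' := Shj_thick hκ
    obtain ⟨D'⟩ := Shj_nat hκ' (COR.mirror0 hκ D) k'
    have h1 := COR.mirror0 hκ' D'
    have e1 : (fun q : ℝ × ℂ × ℝ => (fun q : ℝ × ℂ × ℝ => κ (q.1, (starRingEnd ℂ) q.2.1, q.2.2))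
        (q.1, (starRingEnd ℂ) q.2.1, q.2.2)) = κ := by
      funext q
      show κ (q.1, (starRingEnd ℂ) ((starRingEnd ℂ) q.2.1), q.2.2) = κ q
      rw [Complex.conj_conj]
    rw [e1] at h1
    have e2 : 1 - (1 - j + 2 * (k' : ℤ)) = j + 2 * -(k' : ℤ) := by ring
    rw [e2] at h1
    exact h1

end

end Pool.Agent.LNU
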