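import Pool.Agent.BAS.BMa
import Pool.Agent.COR.Frm
import Pool.Agent.COR.Ger
import Pool.Agent.LNU.Shj

/-!
# LNU/MirT: the linear torus over a torus knot, all `j`   (difficulty 3)

`fl y = pS3 (z1 y) (conj (z2 y))`: a smooth involution of `S3` (`RSG.pS3_smooth`, `RSG.pS3_c`, `RSG.S3_sq`), `z1 (fl y) = z1 y`, `z2 (fl y) = conj (z2 y)`.
`mir_tknot`: `κ' (l, v) = fl (κ (l, conj v))` is a `TKnot p (-q)`:
 * thick: composition of the diffeos `(l, v) ↦ (l, conj v)`, `κ`, `fl` (`‖conj v‖ = ‖v‖`).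
 * core: `conj (ex (q l)) = ex (-q l)`.
 * rot: `z1 (κ (l+θ, conj v)) = ex (p θ) z1 (..)`, `conj (ex (q θ) z2 (..)) = ex (-q θ) conj (z2 ..)` (`pS3_c`: the two coordinates have norm 1 in total).
 * val: `tf p (-q) (fl y) = pw (√2 z1 y) (-q) - pw (√2 conj (z2 y)) p = conj (tf p q y)`, because `pw z (-k) = conj (pw z k)` and `pw (conj z) k = conj (pw z k)` (cases on the sign of `k`);
   so `tf p (-q) (κ' (l, v)) = conj (δ ex (p q l) conj v) = δ ex (p (-q) l) v`.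
`kap_mir`: `fl × id` maps `kap κ r n (l, conj v, t)` to `kap κ' r n (l, v, t)`.
`kap_all`: `j = 0` is `BAS.lin_twin`, with `shj_all` every even `j`.  `j = 1`: `lin_twin` for `κ'` (`p, -q` coprime, nonzero), `COR.TwinP_diffeo` with `fl × id` (an involution, a local
diffeomorphism of `SP`: `RSG.ld_prodMap`) gives `TwinP (q ↦ kap κ r n (l, conj v, t)) n 0 S4`; `COR.mirror0` (for this thick torus) gives `TwinP (kap κ r n) n 1 S4` (`conj (conj v) = v`); with `shj_all` every odd `j`.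
-/

open scoped Manifold ContDiff Topology
open Set Filter
open Complex (I)

namespace Pool.Agent.LNU

open Pool.Agent.RSG (E4 S3 S4 pS3 pS4 ex c1 c2 ht fh)
open Pool.Agent.PTH (SP ISP z1 z2 gE gact)
open Pool.Agent.RBM (ThickT TwinP OnT)
open Pool.Agent.BAS (TKnot kap)

/-- reflection of `S3` -/
noncomputable def fl (y : S3) : S3 := pS3 (z1 y) ((starRingEnd ℂ) (z2 y))

theorem MirT_c (y : S3) : z1 (fl y) = z1 y ∧ z2 (fl y) = (starRingEnd ℂ) (z2 y) := by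
  have h : ‖z1 y‖ ^ 2 + ‖(starRingEnd ℂ) (z2 y)‖ ^ 2 = 1 := by
    rw [Complex.norm_conj]
    exact RSG.S3_sq y
  exact RSG.pS3_c h

theorem MirT_ext {y y' : S3} (h1 : z1 y = z1 y') (h2 : z2 y = z2 y') : y = y' := BAS.BMa_ext h1 h2

theorem MirT_fl (y : S3) : fl (fl y) = y := by
  obtain ⟨h1, h2⟩ := MirT_c y
  obtain ⟨h3, h4⟩ := MirT_c (fl y)
  refine MirT_ext (by rw [h3, h1]) ?_
  rw [h4, h2, Complex.conj_conj]

theorem MirT_pS3 {a b : ℂ} (h : 0 < ‖a‖ ^ 2 + ‖b‖ ^ 2) : fl (pS3 a b) = pS3 a ((starRingEnd ℂ) b) := by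
  obtain ⟨r, hr⟩ : ∃ r, r = (Real.sqrt (‖a‖ ^ 2 + ‖b‖ ^ 2))⁻¹ := ⟨_, rfl⟩
  have hr0 : 0 < r := by
    rw [hr]
    exact inv_pos.2 (Real.sqrt_pos.2 h)
  have hn : ‖(r : ℂ) * a‖ ^ 2 + ‖(r : ℂ) * b‖ ^ 2 = 1 := by
    rw [norm_mul, norm_mul, Complex.norm_real, Real.norm_of_nonneg hr0.le, mul_pow, mul_pow, ← mul_add, hr, inv_pow,
      Real.sq_sqrt h.le]
    exact inv_mul_cancel₀ h.ne'
  obtain ⟨e1, e2⟩ := RSG.pS3_c hn
  rw [← BAS.pS3_scale hr0 a b, ← BAS.pS3_scale hr0 a ((starRingEnd ℂ) b)]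
  have e3 : z1 (pS3 ((r : ℂ) * a) ((r : ℂ) * b)) = (r : ℂ) * a := e1
  have e4 : z2 (pS3 ((r : ℂ) * a) ((r : ℂ) * b)) = (r : ℂ) * b := e2
  unfold fl
  rw [e3, e4, map_mul, Complex.conj_ofReal]

theorem MirT_conj_smooth : ContDiff ℝ ∞ (fun w : ℂ => (starRingEnd ℂ) w) := Complex.conjCLE.contDiff

theorem MirT_smooth (y : S3) : ContMDiffAt (𝓡 3) (𝓡 3) ∞ fl y := by
  have h1 : ContMDiffAt (𝓡 3) 𝓘(ℝ, ℂ) ∞ (fun y : S3 => (starRingEnd ℂ) (z2 y)) y :=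
    (MirT_conj_smooth.contMDiff (x := z2 y)).comp y BAS.z2_smooth.contMDiffAt
  refine RSG.pS3_smooth BAS.z1_smooth.contMDiffAt h1 ?_
  rw [Complex.norm_conj]
  have h2 : ‖z1 y‖ ^ 2 + ‖z2 y‖ ^ 2 = 1 := RSG.S3_sq y
  rw [h2]
  norm_num

theorem MirT_ld (y : S3) : IsLocalDiffeomorphAt (𝓡 3) (𝓡 3) ∞ fl y :=
  RSG.ld_two (g := fl) (Eventually.of_forall fun y => MirT_smooth y) (Eventually.of_forall fun y => MirT_smooth y)
    (Eventually.of_forall fun y => MirT_fl y) (Eventually.of_forall fun y => MirT_fl y)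

theorem MirT_cld (x : ℝ × ℂ) : IsLocalDiffeomorphAt 𝓘(ℝ, ℝ × ℂ) 𝓘(ℝ, ℝ × ℂ) ∞
    (fun x : ℝ × ℂ => ((x.1, (starRingEnd ℂ) x.2) : ℝ × ℂ)) x := by
  have hs : ∀ x : ℝ × ℂ, ContMDiffAt 𝓘(ℝ, ℝ × ℂ) 𝓘(ℝ, ℝ × ℂ) ∞
      (fun x : ℝ × ℂ => ((x.1, (starRingEnd ℂ) x.2) : ℝ × ℂ)) x := fun x =>
    (contDiff_fst.prodMk (MirT_conj_smooth.comp contDiff_snd)).contMDiff.contMDiffAt
  exact RSG.ld_two (g := fun x : ℝ × ℂ => ((x.1, (starRingEnd ℂ) x.2) : ℝ × ℂ)) (Eventually.of_forall hs)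
    (Eventually.of_forall hs) (Eventually.of_forall fun y => by simp) (Eventually.of_forall fun y => by simp)

theorem MirT_pw_neg (z : ℂ) (k : ℤ) : BAS.pw z (-k) = (starRingEnd ℂ) (BAS.pw z k) := by
  unfold BAS.pw
  rcases lt_trichotomy k 0 with h | h | h
  · rw [if_pos (by omega), if_neg (by omega), map_pow, Complex.conj_conj]
  · subst h
    simp
  · rw [if_neg (by omega), if_pos (by omega), map_pow, neg_neg]

theorem MirT_pw_conj (z : ℂ) (k : ℤ) : BAS.pw ((starRingEnd ℂ) z) k = (starRingEnd ℂ) (BAS.pw z k) := by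
  unfold BAS.pw
  split_ifs <;> rw [map_pow]

theorem MirT_tf (p q : ℤ) (y : S3) : BAS.tf p (-q) (fl y) = (starRingEnd ℂ) (BAS.tf p q y) := by
  obtain ⟨h1, h2⟩ := MirT_c y
  unfold BAS.tf
  rw [h1, h2, map_sub, ← MirT_pw_neg, ← MirT_pw_conj, map_mul, Complex.conj_ofReal]

theorem mir_tknot {p q : ℤ} {κ : ℝ × ℂ → S3} (h : TKnot p q κ) :
    TKnot p (-q) (fun x : ℝ × ℂ => fl (κ (x.1, (starRingEnd ℂ) x.2))) := by
  refine ⟨⟨?_, ?_, ?_⟩, ?_, ?_, ?_⟩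
  · intro l v
    show fl (κ (l + 1, (starRingEnd ℂ) v)) = fl (κ (l, (starRingEnd ℂ) v))
    rw [h.thick.per]
  · intro l v hv
    have h1 := MirT_cld (l, v)
    have h2 : IsLocalDiffeomorphAt 𝓘(ℝ, ℝ × ℂ) (𝓡 3) ∞ κ (l, (starRingEnd ℂ) v) :=
      h.thick.loc l _ (by rwa [Complex.norm_conj])
    have h3 := IsLocalDiffeomorphAt.comp (hf := h1) (hg := h2)
    exact IsLocalDiffeomorphAt.comp (hf := h3) (hg := MirT_ld _)
  · intro l v l' v' hv hv' he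
    have he' : κ (l, (starRingEnd ℂ) v) = κ (l', (starRingEnd ℂ) v') := by
      have := congrArg fl he
      simp only [MirT_fl] at this
      exact this
    obtain ⟨e1, e2⟩ := h.thick.inj _ _ _ _ (by rwa [Complex.norm_conj]) (by rwa [Complex.norm_conj]) he'
    refine ⟨?_, e2⟩
    have := congrArg (starRingEnd ℂ) e1
    simpa using this
  · intro l
    show fl (κ (l, (starRingEnd ℂ) 0)) = _
    rw [map_zero, h.core l, MirT_pS3 (by rw [RSG.ex_norm, RSG.ex_norm]; norm_num), ← RSG.ex_neg]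
    push_cast
    rw [neg_mul]
  · intro l θ v
    show fl (κ (l + θ, (starRingEnd ℂ) v)) = _
    obtain ⟨h1, h2⟩ := MirT_c (κ (l, (starRingEnd ℂ) v))
    rw [h.rot l θ, MirT_pS3, map_mul, ← RSG.ex_neg]
    · show pS3 _ _ = pS3 (ex (p * θ) * z1 (fl (κ (l, (starRingEnd ℂ) v))))
        (ex (((-q : ℤ) : ℝ) * θ) * z2 (fl (κ (l, (starRingEnd ℂ) v))))
      rw [h1, h2]
      push_cast
      rw [neg_mul]
    · rw [norm_mul, norm_mul, RSG.ex_norm, RSG.ex_norm, one_mul, one_mul]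
      have h2 : ‖z1 (κ (l, (starRingEnd ℂ) v))‖ ^ 2 + ‖z2 (κ (l, (starRingEnd ℂ) v))‖ ^ 2 = 1 := RSG.S3_sq _
      rw [h2]
      norm_num
  · obtain ⟨δ, hδ, hv⟩ := h.val
    refine ⟨δ, hδ, fun l v hl => ?_⟩
    show BAS.tf p (-q) (fl (κ (l, (starRingEnd ℂ) v))) = _
    rw [MirT_tf, hv l _ (by rwa [Complex.norm_conj]), map_mul, map_mul, Complex.conj_conj, Complex.conj_ofReal,
      ← RSG.ex_neg]
    push_cast
    rw [mul_neg, neg_mul]

/-- `fl × id` -/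
noncomputable def MirT_F : Equiv.Perm SP where
  toFun a := (fl a.1, a.2)
  invFun a := (fl a.1, a.2)
  left_inv a := by
    show (fl (fl a.1), a.2) = a
    rw [MirT_fl]
  right_inv a := by
    show (fl (fl a.1), a.2) = a
    rw [MirT_fl]

theorem MirT_F_ld (a : SP) : IsLocalDiffeomorphAt ISP ISP ∞ MirT_F a := by
  have h2 : IsLocalDiffeomorphAt ISP ISP ∞ (Prod.map fl (id : Circle → Circle)) (a.1, a.2) :=
    RSG.ld_prodMap (MirT_ld a.1) (CSG.ld_id _)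
  exact CSG.ld_congr h2 (Eventually.of_forall fun b => rfl)

theorem kap_all {p q : ℤ} (hpq : IsCoprime p q) (hp : p ≠ 0) (hq : q ≠ 0) {κ : ℝ × ℂ → S3}
    (h : TKnot p q κ) (r n j : ℤ) : Nonempty (TwinP ISP (kap κ r n) n j S4) := by
  have hth : ThickT ISP (kap κ r n) := BAS.kap_thick h r n
  obtain ⟨k, hk | hk⟩ := Int.even_or_odd' j
  · have := shj_all hth (BAS.lin_twin hpq hp hq h r n) k
    rw [hk]
    simpa using this
  · have h' := mir_tknot h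
    obtain ⟨D⟩ := BAS.lin_twin (IsCoprime.neg_right hpq) hp (neg_ne_zero.2 hq) h' r n
    have e1 : (fun a => MirT_F (kap (fun x : ℝ × ℂ => fl (κ (x.1, (starRingEnd ℂ) x.2))) r n a)) =
        fun a : ℝ × ℂ × ℝ => kap κ r n (a.1, (starRingEnd ℂ) a.2.1, a.2.2) := by
      funext a
      exact Prod.ext (MirT_fl _) rfl
    obtain ⟨D1⟩ := COR.TwinP_diffeo MirT_F MirT_F_ld D
    have t1 := COR.ThickT_diffeo MirT_F MirT_F_ld (BAS.kap_thick h' r n)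
    rw [e1] at D1 t1
    obtain ⟨D2⟩ := COR.mirror0 t1 D1
    have e2 : (fun a : ℝ × ℂ × ℝ => (fun a : ℝ × ℂ × ℝ => kap κ r n (a.1, (starRingEnd ℂ) a.2.1, a.2.2))
        (a.1, (starRingEnd ℂ) a.2.1, a.2.2)) = kap κ r n := by
      funext a
      show kap κ r n (a.1, (starRingEnd ℂ) ((starRingEnd ℂ) a.2.1), a.2.2) = kap κ r n a
      rw [Complex.conj_conj]
    rw [e2] at D2
    have := shj_all hth ⟨D2⟩ k
    rw [hk, show 2 * k + 1 = 1 - 0 + 2 * k by ring]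
    exact this

end Pool.Agent.LNU
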