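import Pool.Agent.LNU.TwM

/-!
# LNU/PhM: the map `phi` of the twin   (difficulty 2)

`sw`, `cjS` are smooth involutions (`RSG.pS4_c`, `pS4_smooth`, `S4_ext`), so `phi`, `phi'` are inverse to each other and smooth: local diffeomorphisms (`RSG.ld_two`).
`Pure z : 1/32 ≤ ‖c1 z‖², 1/32 ≤ ‖c2 z‖²`.  For pure `z` all maps act by the phases: if `c1 z = a ex x`, `c2 z = b ex y` (`a, b > 0`), then
`tw`: `c2 = b ex (y - 2 x)`;  `sw`, `tw'`, `sw`: `c1 = a ex (x + 2 (y - 2 x)) = a ex (2 y - 3 x)`;  `cjS`: `c1 = a ex (3 x - 2 y)`, `c2 = b ex (2 x - y)`.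
The moduli and `ht` are preserved, so `fh` (RSG/Defs: it depends only on `‖c1‖, ‖c2‖, ht`) is preserved.
`phi'` also preserves the moduli and `ht` of pure points (same computation, or: `tw`, `tw'`, `sw`, `cjS` preserve or exchange the moduli of pure points).
`2 ‖c1 z‖ ‖c2 z‖ ≥ 1/2` implies that `z` is pure (`‖c1 z‖, ‖c2 z‖ ≤ 1`, so both are `≥ 1/4`, `1/16 ≥ 1/32`).
`phi_half`: if `2 ‖c1 z‖ ‖c2 z‖ ≤ 1/2` then the same for `phi z`: otherwise `phi z` is pure and `z = phi' (phi z)` has the same moduli.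
`phi_fh`: if `2 ‖c1 z‖ ‖c2 z‖ ≤ 1/2` then `fh z ≠ 0`, `fh (phi z) ≠ 0` by `RSG.fh_ne_iff` and `phi_half`; otherwise `fh (phi z) = fh z`.
-/

open scoped Manifold ContDiff
open Complex (I)

namespace Pool.Agent.LNU

open Pool.Agent.RSG (E4 S3 S4 pS3 pS4 ex c1 c2 ht fh)

theorem PhM_sw (z : S4) : c1 (sw z) = c2 z ∧ c2 (sw z) = c1 z ∧ ht (sw z) = ht z := by
  unfold sw
  apply Pool.Agent.RSG.pS4_c
  have := Pool.Agent.RSG.S4_sq z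
  linarith

theorem PhM_cj (z : S4) : c1 (cjS z) = (starRingEnd ℂ) (c1 z) ∧ c2 (cjS z) = (starRingEnd ℂ) (c2 z) ∧
    ht (cjS z) = ht z := by
  unfold cjS
  apply Pool.Agent.RSG.pS4_c
  have := Pool.Agent.RSG.S4_sq z
  rw [Complex.norm_conj, Complex.norm_conj]
  linarith

theorem PhM_sw_sw (z : S4) : sw (sw z) = z := by
  apply Pool.Agent.RSG.S4_ext
  · rw [(PhM_sw _).1, (PhM_sw _).2.1]
  · rw [(PhM_sw _).2.1, (PhM_sw _).1]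
  · rw [(PhM_sw _).2.2, (PhM_sw _).2.2]

theorem PhM_cj_cj (z : S4) : cjS (cjS z) = z := by
  apply Pool.Agent.RSG.S4_ext
  · rw [(PhM_cj _).1, (PhM_cj _).1, Complex.conj_conj]
  · rw [(PhM_cj _).2.1, (PhM_cj _).2.1, Complex.conj_conj]
  · rw [(PhM_cj _).2.2, (PhM_cj _).2.2]

theorem PhM_sw_smooth : ContMDiff (𝓡 4) (𝓡 4) ∞ sw := by
  intro z
  refine Pool.Agent.RSG.pS4_smooth (Pool.Agent.RSG.c2_smooth z) (Pool.Agent.RSG.c1_smooth z)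
    (Pool.Agent.RSG.ht_smooth z) ?_
  have := Pool.Agent.RSG.S4_sq z
  linarith

theorem PhM_cj_smooth : ContMDiff (𝓡 4) (𝓡 4) ∞ cjS := by
  intro z
  have hc : ContMDiff 𝓘(ℝ, ℂ) 𝓘(ℝ, ℂ) ∞ (fun w : ℂ => (starRingEnd ℂ) w) :=
    (Complex.conjCLE.contDiff (n := ∞)).contMDiff
  refine Pool.Agent.RSG.pS4_smooth ((hc.comp Pool.Agent.RSG.c1_smooth) z)
    ((hc.comp Pool.Agent.RSG.c2_smooth) z) (Pool.Agent.RSG.ht_smooth z) ?_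
  have := Pool.Agent.RSG.S4_sq z
  simp only [Complex.norm_conj]
  linarith

theorem PhM_smooth : ContMDiff (𝓡 4) (𝓡 4) ∞ phi :=
  PhM_cj_smooth.comp (PhM_sw_smooth.comp (tw'_smooth.comp (PhM_sw_smooth.comp tw_smooth)))

theorem PhM_smooth' : ContMDiff (𝓡 4) (𝓡 4) ∞ phi' :=
  tw'_smooth.comp (PhM_sw_smooth.comp (tw_smooth.comp (PhM_sw_smooth.comp PhM_cj_smooth)))

theorem PhM_norm {a : ℝ} (ha : 0 < a) (x : ℝ) : ‖(a : ℂ) * ex x‖ = a := by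
  rw [norm_mul, Pool.Agent.RSG.ex_norm, mul_one, Complex.norm_real, Real.norm_of_nonneg ha.le]

theorem PhM_tw {z : S4} {a b x y : ℝ} (ha : 1 / 4 ≤ a) (h1 : c1 z = a * ex x) (h2 : c2 z = b * ex y) :
    c1 (tw z) = a * ex x ∧ c2 (tw z) = b * ex (y - 2 * x) ∧ ht (tw z) = ht z := by
  have ha0 : 0 < a := by linarith
  have hn : ‖c1 z‖ = a := by rw [h1]; exact PhM_norm ha0 x
  have hh : 1 / 32 ≤ ‖c1 z‖ ^ 2 := by rw [hn]; nlinarith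
  obtain ⟨e1, e2⟩ := tw_high hh
  refine ⟨by rw [tw_c1, h1], ?_, e2⟩
  have hd : dc z = ex (-x) := by
    unfold dc
    rw [hn, h1, mul_div_cancel_left₀ _ (by exact_mod_cast ha0.ne' : (a : ℂ) ≠ 0),
      Pool.Agent.RSG.ex_neg]
  rw [e1, hd, h2, show y - 2 * x = (-x) + ((-x) + y) by ring, Pool.Agent.RSG.ex_add,
    Pool.Agent.RSG.ex_add]
  ring

theorem PhM_tw' {z : S4} {a b x y : ℝ} (ha : 1 / 4 ≤ a) (h1 : c1 z = a * ex x) (h2 : c2 z = b * ex y) :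
    c1 (tw' z) = a * ex x ∧ c2 (tw' z) = b * ex (y + 2 * x) ∧ ht (tw' z) = ht z := by
  have ha0 : 0 < a := by linarith
  have hn : ‖c1 z‖ = a := by rw [h1]; exact PhM_norm ha0 x
  have hh : 1 / 32 ≤ ‖c1 z‖ ^ 2 := by rw [hn]; nlinarith
  obtain ⟨e1, e2⟩ := tw'_high hh
  refine ⟨by rw [tw'_c1, h1], ?_, e2⟩
  have hd : c1 z / ‖c1 z‖ = ex x := by
    rw [hn, h1, mul_div_cancel_left₀ _ (by exact_mod_cast ha0.ne' : (a : ℂ) ≠ 0)]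
  rw [e1, hd, h2, show y + 2 * x = x + (x + y) by ring, Pool.Agent.RSG.ex_add,
    Pool.Agent.RSG.ex_add]
  ring

theorem PhM_sw' {z : S4} {p q : ℂ} (h1 : c1 z = p) (h2 : c2 z = q) :
    c1 (sw z) = q ∧ c2 (sw z) = p ∧ ht (sw z) = ht z := by
  rw [← h1, ← h2]
  exact PhM_sw z

theorem PhM_cj' {z : S4} {a b x y : ℝ} (h1 : c1 z = a * ex x) (h2 : c2 z = b * ex y) :
    c1 (cjS z) = a * ex (-x) ∧ c2 (cjS z) = b * ex (-y) ∧ ht (cjS z) = ht z := by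
  obtain ⟨e1, e2, e3⟩ := PhM_cj z
  refine ⟨?_, ?_, e3⟩
  · rw [e1, h1, map_mul, Complex.conj_ofReal, Pool.Agent.RSG.ex_neg]
  · rw [e2, h2, map_mul, Complex.conj_ofReal, Pool.Agent.RSG.ex_neg]

theorem PhM_phi {z : S4} {a b x y : ℝ} (ha : 1 / 4 ≤ a) (hb : 1 / 4 ≤ b) (h1 : c1 z = a * ex x)
    (h2 : c2 z = b * ex y) : c1 (phi z) = a * ex (3 * x - 2 * y) ∧ c2 (phi z) = b * ex (2 * x - y) ∧
    ht (phi z) = ht z := by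
  obtain ⟨p1, p2, p3⟩ := PhM_tw ha h1 h2
  obtain ⟨q1, q2, q3⟩ := PhM_sw' p1 p2
  obtain ⟨r1, r2, r3⟩ := PhM_tw' hb q1 q2
  obtain ⟨s1, s2, s3⟩ := PhM_sw' r1 r2
  obtain ⟨t1, t2, t3⟩ := PhM_cj' s1 s2
  refine ⟨?_, ?_, ?_⟩
  · have : -(x + 2 * (y - 2 * x)) = 3 * x - 2 * y := by ring
    rw [this] at t1
    exact t1
  · have : -(y - 2 * x) = 2 * x - y := by ring
    rw [this] at t2
    exact t2
  · change ht (cjS (sw (tw' (sw (tw z))))) = _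
    rw [t3, s3, r3, q3, p3]

theorem PhM_phi' {z : S4} {a b x y : ℝ} (ha : 1 / 4 ≤ a) (hb : 1 / 4 ≤ b) (h1 : c1 z = a * ex x)
    (h2 : c2 z = b * ex y) : ∃ x' y' : ℝ, c1 (phi' z) = a * ex x' ∧ c2 (phi' z) = b * ex y' := by
  obtain ⟨p1, p2, p3⟩ := PhM_cj' h1 h2
  obtain ⟨q1, q2, q3⟩ := PhM_sw' p1 p2
  obtain ⟨r1, r2, r3⟩ := PhM_tw hb q1 q2
  obtain ⟨s1, s2, s3⟩ := PhM_sw' r1 r2
  obtain ⟨t1, t2, t3⟩ := PhM_tw' ha s1 s2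
  exact ⟨_, _, t1, t2⟩

theorem PhM_q {z : S4} (h : 1 / 2 ≤ 2 * ‖c1 z‖ * ‖c2 z‖) : 1 / 4 ≤ ‖c1 z‖ ∧ 1 / 4 ≤ ‖c2 z‖ := by
  have h0 := Pool.Agent.RSG.S4_sq z
  have h1 := norm_nonneg (c1 z)
  have h2 := norm_nonneg (c2 z)
  have h3 : ‖c1 z‖ ≤ 1 := by nlinarith [sq_nonneg ‖c2 z‖, sq_nonneg (ht z)]
  have h4 : ‖c2 z‖ ≤ 1 := by nlinarith [sq_nonneg ‖c1 z‖, sq_nonneg (ht z)]
  constructor <;> nlinarith

theorem phi'_phi (z : S4) : phi' (phi z) = z := by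
  unfold phi phi'
  rw [PhM_cj_cj, PhM_sw_sw, tw_tw', PhM_sw_sw, tw'_tw]

theorem phi_phi' (z : S4) : phi (phi' z) = z := by
  unfold phi phi'
  rw [tw_tw', PhM_sw_sw, tw'_tw, PhM_sw_sw, PhM_cj_cj]

theorem phi_ld (z : S4) : IsLocalDiffeomorphAt (𝓡 4) (𝓡 4) ∞ phi z :=
  Pool.Agent.RSG.ld_two (g := phi') (Filter.Eventually.of_forall fun y => PhM_smooth y)
    (Filter.Eventually.of_forall fun y => PhM_smooth' y)
    (Filter.Eventually.of_forall fun y => phi'_phi y)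
    (Filter.Eventually.of_forall fun y => phi_phi' y)

/-- moduli, height and phases where `2 |c1| |c2| ≥ 1/2` -/
theorem phi_pure {z : S4} (h : 1 / 2 ≤ 2 * ‖c1 z‖ * ‖c2 z‖) {x y : ℝ} (h1 : c1 z = ‖c1 z‖ * ex x)
    (h2 : c2 z = ‖c2 z‖ * ex y) :
    c1 (phi z) = ‖c1 z‖ * ex (3 * x - 2 * y) ∧ c2 (phi z) = ‖c2 z‖ * ex (2 * x - y) ∧
      ‖c1 (phi z)‖ = ‖c1 z‖ ∧ ‖c2 (phi z)‖ = ‖c2 z‖ ∧ fh (phi z) = fh z := by
  obtain ⟨ha, hb⟩ := PhM_q h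
  obtain ⟨e1, e2, e3⟩ := PhM_phi ha hb h1 h2
  have n1 : ‖c1 (phi z)‖ = ‖c1 z‖ := by
    rw [e1]; exact PhM_norm (by linarith) _
  have n2 : ‖c2 (phi z)‖ = ‖c2 z‖ := by
    rw [e2]; exact PhM_norm (by linarith) _
  refine ⟨e1, e2, n1, n2, ?_⟩
  unfold fh
  rw [n1, n2, e3]

theorem phi_half {z : S4} (h : 2 * ‖c1 z‖ * ‖c2 z‖ ≤ 1 / 2) : 2 * ‖c1 (phi z)‖ * ‖c2 (phi z)‖ ≤ 1 / 2 := by
  by_contra hc
  rw [not_le] at hc
  obtain ⟨ha, hb⟩ := PhM_q hc.le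
  obtain ⟨x, y, e1, e2⟩ := PhM_phi' ha hb (Pool.Agent.RSG.ex_arg (p := c1 (phi z))).symm
    (Pool.Agent.RSG.ex_arg (p := c2 (phi z))).symm
  rw [phi'_phi] at e1 e2
  have n1 : ‖c1 z‖ = ‖c1 (phi z)‖ := by
    rw [e1]; exact PhM_norm (by linarith) _
  have n2 : ‖c2 z‖ = ‖c2 (phi z)‖ := by
    rw [e2]; exact PhM_norm (by linarith) _
  rw [n1, n2] at h
  linarith

theorem phi_fh (z : S4) : fh (phi z) ≠ 0 ↔ fh z ≠ 0 := by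
  rcases le_total (2 * ‖c1 z‖ * ‖c2 z‖) (1 / 2) with h | h
  · have h' := phi_half h
    rw [Pool.Agent.RSG.fh_ne_iff, Pool.Agent.RSG.fh_ne_iff]
    constructor <;> intro _ <;> linarith
  · rw [(phi_pure h (Pool.Agent.RSG.ex_arg (p := c1 z)).symm
      (Pool.Agent.RSG.ex_arg (p := c2 z)).symm).2.2.2.2]

end Pool.Agent.LNU
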