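import Pool.Agent.LNU.Defs

open scoped Manifold ContDiff
open Complex (I)

namespace Pool.Agent.LNU

/-- Euclidean norm squared of `ℂ × ℝ` -/
noncomputable def n3 (p : ℂ × ℝ) : ℝ := ‖p.1‖ ^ 2 + p.2 ^ 2

theorem Rot_n3 (p : ℂ × ℝ) : n3 p = p.1.re ^ 2 + p.1.im ^ 2 + p.2 ^ 2 := by
  unfold n3
  rw [Complex.sq_norm, Complex.normSq_apply]
  ring

theorem Rot_rs (s : ℝ) (p : ℂ × ℝ) : n3 (rs s p) = n3 p := by
  rw [Rot_n3, Rot_n3]
  simp only [rs]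
  have h := Real.sin_sq_add_cos_sq (2 * Real.pi * s)
  linear_combination (p.1.re ^ 2 + p.2 ^ 2) * h

theorem Rot_rz {e : ℂ} (he : ‖e‖ = 1) (p : ℂ × ℝ) : n3 (rz e p) = n3 p := by
  simp [n3, rz, he]

theorem Rot_rs_neg (s : ℝ) (p : ℂ × ℝ) : rs s (rs (-s) p) = p := by
  have h := Real.sin_sq_add_cos_sq (2 * Real.pi * s)
  have e1 : 2 * Real.pi * (-s) = -(2 * Real.pi * s) := by ring
  simp only [rs, e1, Real.cos_neg, Real.sin_neg]
  refine Prod.ext (Complex.ext ?_ rfl) ?_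
  · show Real.cos (2 * Real.pi * s) * (Real.cos (2 * Real.pi * s) * p.1.re - -Real.sin (2 * Real.pi * s) * p.2) -
      Real.sin (2 * Real.pi * s) * (-Real.sin (2 * Real.pi * s) * p.1.re + Real.cos (2 * Real.pi * s) * p.2) = p.1.re
    linear_combination p.1.re * h
  · show Real.sin (2 * Real.pi * s) * (Real.cos (2 * Real.pi * s) * p.1.re - -Real.sin (2 * Real.pi * s) * p.2) +
      Real.cos (2 * Real.pi * s) * (-Real.sin (2 * Real.pi * s) * p.1.re + Real.cos (2 * Real.pi * s) * p.2) = p.2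
    linear_combination p.2 * h

theorem Rot_neg_rs (s : ℝ) (p : ℂ × ℝ) : rs (-s) (rs s p) = p := by
  have := Rot_rs_neg (-s) p
  rwa [neg_neg] at this

theorem Rot_ee {e : ℂ} (he : ‖e‖ = 1) : e * (starRingEnd ℂ) e = 1 := by
  rw [Complex.mul_conj, Complex.normSq_eq_norm_sq, he]
  norm_num

theorem Rot_rz_conj {e : ℂ} (he : ‖e‖ = 1) (p : ℂ × ℝ) : rz e (rz ((starRingEnd ℂ) e) p) = p := by
  simp only [rz]
  rw [← mul_assoc, Rot_ee he, one_mul]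

theorem Rot_conj_rz {e : ℂ} (he : ‖e‖ = 1) (p : ℂ × ℝ) : rz ((starRingEnd ℂ) e) (rz e p) = p := by
  simp only [rz]
  rw [← mul_assoc, mul_comm _ e, Rot_ee he, one_mul]

theorem dr_norm (s : ℝ) {e : ℂ} (he : ‖e‖ = 1) (p : ℂ × ℝ) : n3 (dr s e p) = n3 p := by
  rw [dr, Rot_rz he, Rot_rs, Rot_rz he, Rot_rs]

theorem Rot_conj_norm {e : ℂ} (he : ‖e‖ = 1) : ‖(starRingEnd ℂ) e‖ = 1 := by
  rw [Complex.norm_conj, he]

theorem dr'_norm (s : ℝ) {e : ℂ} (he : ‖e‖ = 1) (p : ℂ × ℝ) : n3 (dr' s e p) = n3 p := by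
  rw [dr', Rot_rs, Rot_rz (Rot_conj_norm he), Rot_rs, Rot_rz (Rot_conj_norm he)]

theorem dr_dr' (s : ℝ) {e : ℂ} (he : ‖e‖ = 1) (p : ℂ × ℝ) : dr s e (dr' s e p) = p := by
  rw [dr, dr', Rot_neg_rs, Rot_rz_conj he, Rot_rs_neg, Rot_rz_conj he]

theorem dr'_dr (s : ℝ) {e : ℂ} (he : ‖e‖ = 1) (p : ℂ × ℝ) : dr' s e (dr s e p) = p := by
  rw [dr, dr', Rot_conj_rz he, Rot_neg_rs, Rot_conj_rz he, Rot_rs_neg]

theorem Rot_rs0 (p : ℂ × ℝ) : rs 0 p = p := by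
  simp [rs]

theorem dr_zero (e : ℂ) (p : ℂ × ℝ) : dr 0 e p = (e * e * p.1, p.2) := by
  rw [dr, neg_zero, Rot_rs0, Rot_rs0, rz, rz]
  simp [mul_assoc]

theorem dr'_zero (e : ℂ) (p : ℂ × ℝ) :
    dr' 0 e p = ((starRingEnd ℂ) e * (starRingEnd ℂ) e * p.1, p.2) := by
  rw [dr', neg_zero, Rot_rs0, Rot_rs0, rz, rz]
  simp [mul_assoc]

theorem Rot_half (p : ℂ × ℝ) : rs (1 / 2) p = (-(starRingEnd ℂ) p.1, -p.2) := by
  have e1 : 2 * Real.pi * (1 / 2) = Real.pi := by ring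
  simp only [rs, e1, Real.cos_pi, Real.sin_pi]
  refine Prod.ext (Complex.ext ?_ ?_) ?_ <;> simp

theorem Rot_nhalf (p : ℂ × ℝ) : rs (-(1 / 2)) p = (-(starRingEnd ℂ) p.1, -p.2) := by
  have e1 : 2 * Real.pi * -(1 / 2) = -Real.pi := by ring
  simp only [rs, e1, Real.cos_neg, Real.sin_neg, Real.cos_pi, Real.sin_pi]
  refine Prod.ext (Complex.ext ?_ ?_) ?_ <;> simp

theorem dr_half {e : ℂ} (he : ‖e‖ = 1) (p : ℂ × ℝ) : dr (1 / 2) e p = p := by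
  rw [dr, Rot_nhalf, Rot_half]
  simp only [rz]
  refine Prod.ext ?_ ?_
  · show e * -(starRingEnd ℂ) (e * -(starRingEnd ℂ) p.1) = p.1
    rw [map_mul, map_neg, Complex.conj_conj]
    linear_combination p.1 * Rot_ee he
  · show - -p.2 = p.2
    ring

theorem dr'_half {e : ℂ} (he : ‖e‖ = 1) (p : ℂ × ℝ) : dr' (1 / 2) e p = p := by
  have := dr'_dr (1 / 2) he p
  rwa [dr_half he] at this

theorem Rot_mk {V : Type*} [NormedAddCommGroup V] [NormedSpace ℝ V] {a b : V → ℝ} (ha : ContDiff ℝ ∞ a)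
    (hb : ContDiff ℝ ∞ b) : ContDiff ℝ ∞ fun x => (⟨a x, b x⟩ : ℂ) := by
  have e : (fun x => (⟨a x, b x⟩ : ℂ)) = fun x => (a x : ℂ) + (b x : ℂ) * I := by
    funext x
    apply Complex.ext <;> simp
  rw [e]
  exact (Complex.ofRealCLM.contDiff.comp ha).add ((Complex.ofRealCLM.contDiff.comp hb).mul contDiff_const)

theorem Rot_rs_smooth {V : Type*} [NormedAddCommGroup V] [NormedSpace ℝ V] {s : V → ℝ} {p : V → ℂ × ℝ}
    (hs : ContDiff ℝ ∞ s) (hp : ContDiff ℝ ∞ p) : ContDiff ℝ ∞ fun x => rs (s x) (p x) := by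
  have h1 : ContDiff ℝ ∞ fun x => Real.cos (2 * Real.pi * s x) := Real.contDiff_cos.comp (contDiff_const.mul hs)
  have h2 : ContDiff ℝ ∞ fun x => Real.sin (2 * Real.pi * s x) := Real.contDiff_sin.comp (contDiff_const.mul hs)
  have h3 : ContDiff ℝ ∞ fun x => (p x).1.re := Complex.reCLM.contDiff.comp hp.fst
  have h4 : ContDiff ℝ ∞ fun x => (p x).1.im := Complex.imCLM.contDiff.comp hp.fst
  exact (Rot_mk ((h1.mul h3).sub (h2.mul hp.snd)) h4).prodMk ((h2.mul h3).add (h1.mul hp.snd))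

theorem Rot_rz_smooth {V : Type*} [NormedAddCommGroup V] [NormedSpace ℝ V] {e : V → ℂ} {p : V → ℂ × ℝ}
    (he : ContDiff ℝ ∞ e) (hp : ContDiff ℝ ∞ p) : ContDiff ℝ ∞ fun x => rz (e x) (p x) :=
  (he.mul hp.fst).prodMk hp.snd

theorem dr_smooth : ContDiff ℝ ∞ fun q : ℝ × ℂ × ℂ × ℝ => dr q.1 q.2.1 q.2.2 :=
  Rot_rz_smooth contDiff_snd.fst (Rot_rs_smooth contDiff_fst (Rot_rz_smooth contDiff_snd.fst
    (Rot_rs_smooth contDiff_fst.neg contDiff_snd.snd)))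

theorem dr'_smooth : ContDiff ℝ ∞ fun q : ℝ × ℂ × ℂ × ℝ => dr' q.1 q.2.1 q.2.2 := by
  have hc : ContDiff ℝ ∞ fun q : ℝ × ℂ × ℂ × ℝ => (starRingEnd ℂ) q.2.1 :=
    Complex.conjCLE.contDiff.comp contDiff_snd.fst
  exact Rot_rs_smooth contDiff_fst (Rot_rz_smooth hc (Rot_rs_smooth contDiff_fst.neg
    (Rot_rz_smooth hc contDiff_snd.snd)))

end Pool.Agent.LNU
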