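import Pool.Agent.LNU.Rot

/-!
# LNU/TwM: the double twist of `S4`   (difficulty 3)

`S4_sq`: `‖c1 z‖² + n3 (c2 z, ht z) = 1`.
* `tw_c`: if `c1 z ≠ 0`: `‖dc z‖ = 1`, the three entries of `pS4` have total norm 1 (`dr_norm`), `RSG.pS4_c` gives the coordinates.
* `tw_low`: `‖c1 z‖² ≤ 1/64`: `muS = 1/2`, `dr_half`, `pS4_self`.  (`CSG.stp`: see CSG/FunBasic for its values and smoothness.)
* `tw_high`: `‖c1 z‖² ≥ 1/32`: `muS = 0`, `dr_zero`.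
* `tw_tw'`, `tw'_tw`: `c1 (tw z) = c1 z`, `dc (tw z) = dc z`; if `c1 z = 0` both are the identity; else `dr_dr'`, `S4_ext`.
* smoothness: near a point with `c1 z ≠ 0` the formula is a composition of smooth maps (`RSG.pS4_smooth`, `c1_smooth`, ..; the vector is nonzero since
  its norm is 1; `dc` is smooth where `c1 ≠ 0`: `ContDiffAt` of `w ↦ conj (w / ‖w‖)`; compare with RSG/GcM `GcM_norm_smooth`); near a point with `‖c1 z‖² < 1/64` it is the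
  identity.  `ContMDiffAt.congr_of_eventuallyEq`, `contMDiffAt_id`.
-/

open scoped Manifold ContDiff
open Complex (I)

namespace Pool.Agent.LNU

open Pool.Agent.RSG (E4 S3 S4 pS3 pS4 ex c1 c2 ht fh)

theorem TwM_dc {z : S4} (h : c1 z ≠ 0) : ‖dc z‖ = 1 := by
  unfold dc
  rw [RCLike.norm_conj, norm_div, Complex.norm_real, norm_norm, div_self (norm_ne_zero_iff.2 h)]

theorem TwM_def {z : S4} (h : c1 z ≠ 0) : tw z = pS4 (c1 z)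
    (dr (muS (‖c1 z‖ ^ 2)) (dc z) (c2 z, ht z)).1 (dr (muS (‖c1 z‖ ^ 2)) (dc z) (c2 z, ht z)).2 := by
  unfold tw
  rw [if_neg h]

theorem TwM_def' {z : S4} (h : c1 z ≠ 0) : tw' z = pS4 (c1 z)
    (dr' (muS (‖c1 z‖ ^ 2)) (dc z) (c2 z, ht z)).1 (dr' (muS (‖c1 z‖ ^ 2)) (dc z) (c2 z, ht z)).2 := by
  unfold tw'
  rw [if_neg h]

theorem TwM_zero {z : S4} (h : c1 z = 0) : tw z = z := by
  unfold tw
  rw [if_pos h]

theorem TwM_zero' {z : S4} (h : c1 z = 0) : tw' z = z := by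
  unfold tw'
  rw [if_pos h]

theorem TwM_sq {z : S4} {q : ℂ × ℝ} (h : n3 q = n3 (c2 z, ht z)) :
    ‖c1 z‖ ^ 2 + ‖q.1‖ ^ 2 + q.2 ^ 2 = 1 := by
  have h1 := RSG.S4_sq z
  unfold n3 at h
  simp only at h
  linarith

theorem TwM_c {z : S4} (h : c1 z ≠ 0) : c1 (tw z) = c1 z ∧
    c2 (tw z) = (dr (muS (‖c1 z‖ ^ 2)) (dc z) (c2 z, ht z)).1 ∧
    ht (tw z) = (dr (muS (‖c1 z‖ ^ 2)) (dc z) (c2 z, ht z)).2 := by
  rw [TwM_def h]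
  exact RSG.pS4_c (TwM_sq (dr_norm _ (TwM_dc h) _))

theorem TwM_c' {z : S4} (h : c1 z ≠ 0) : c1 (tw' z) = c1 z ∧
    c2 (tw' z) = (dr' (muS (‖c1 z‖ ^ 2)) (dc z) (c2 z, ht z)).1 ∧
    ht (tw' z) = (dr' (muS (‖c1 z‖ ^ 2)) (dc z) (c2 z, ht z)).2 := by
  rw [TwM_def' h]
  exact RSG.pS4_c (TwM_sq (dr'_norm _ (TwM_dc h) _))

theorem tw_c1 (z : S4) : c1 (tw z) = c1 z := by
  by_cases h : c1 z = 0
  · rw [TwM_zero h]
  · exact (TwM_c h).1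

theorem tw'_c1 (z : S4) : c1 (tw' z) = c1 z := by
  by_cases h : c1 z = 0
  · rw [TwM_zero' h]
  · exact (TwM_c' h).1

theorem TwM_mu_low {x : ℝ} (h : x ≤ 1 / 64) : muS x = 1 / 2 := by
  unfold muS
  rw [CSG.stp_zero (by norm_num) h]
  norm_num

theorem TwM_mu_high {x : ℝ} (h : 1 / 32 ≤ x) : muS x = 0 := by
  unfold muS
  rw [CSG.stp_one (by norm_num) h]
  norm_num

theorem tw_low {z : S4} (h : ‖c1 z‖ ^ 2 ≤ 1 / 64) : tw z = z := by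
  by_cases h0 : c1 z = 0
  · exact TwM_zero h0
  · rw [TwM_def h0, TwM_mu_low h, dr_half (TwM_dc h0)]
    exact RSG.pS4_self z

theorem tw'_low {z : S4} (h : ‖c1 z‖ ^ 2 ≤ 1 / 64) : tw' z = z := by
  by_cases h0 : c1 z = 0
  · exact TwM_zero' h0
  · rw [TwM_def' h0, TwM_mu_low h, dr'_half (TwM_dc h0)]
    exact RSG.pS4_self z

theorem TwM_ne {z : S4} (h : 1 / 32 ≤ ‖c1 z‖ ^ 2) : c1 z ≠ 0 := by
  intro h0
  rw [h0, norm_zero] at h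
  norm_num at h

/-- `(c̄1 / |c1|)² c2` -/
theorem tw_high {z : S4} (h : 1 / 32 ≤ ‖c1 z‖ ^ 2) :
    c2 (tw z) = dc z * dc z * c2 z ∧ ht (tw z) = ht z := by
  obtain ⟨-, h2, h3⟩ := TwM_c (TwM_ne h)
  rw [TwM_mu_high h, dr_zero] at h2 h3
  exact ⟨h2, h3⟩

theorem tw'_high {z : S4} (h : 1 / 32 ≤ ‖c1 z‖ ^ 2) :
    c2 (tw' z) = (c1 z / ‖c1 z‖) * (c1 z / ‖c1 z‖) * c2 z ∧ ht (tw' z) = ht z := by
  obtain ⟨-, h2, h3⟩ := TwM_c' (TwM_ne h)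
  rw [TwM_mu_high h, dr'_zero] at h2 h3
  have e : (starRingEnd ℂ) (dc z) = c1 z / ‖c1 z‖ := by
    unfold dc
    exact Complex.conj_conj _
  rw [e] at h2 h3
  exact ⟨h2, h3⟩

theorem TwM_dc_eq {z z' : S4} (h : c1 z' = c1 z) : dc z' = dc z := by
  unfold dc
  rw [h]

theorem tw_tw' (z : S4) : tw (tw' z) = z := by
  by_cases h : c1 z = 0
  · rw [TwM_zero' h, TwM_zero h]
  · obtain ⟨a1, a2, a3⟩ := TwM_c' h
    have h' : c1 (tw' z) ≠ 0 := by rw [a1]; exact h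
    obtain ⟨b1, b2, b3⟩ := TwM_c h'
    rw [a1, TwM_dc_eq a1] at b2 b3
    have e : (c2 (tw' z), ht (tw' z)) = dr' (muS (‖c1 z‖ ^ 2)) (dc z) (c2 z, ht z) :=
      Prod.ext a2 a3
    rw [e, dr_dr' _ (TwM_dc h)] at b2 b3
    exact RSG.S4_ext (b1.trans a1) b2 b3

theorem tw'_tw (z : S4) : tw' (tw z) = z := by
  by_cases h : c1 z = 0
  · rw [TwM_zero h, TwM_zero' h]
  · obtain ⟨a1, a2, a3⟩ := TwM_c h
    have h' : c1 (tw z) ≠ 0 := by rw [a1]; exact h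
    obtain ⟨b1, b2, b3⟩ := TwM_c' h'
    rw [a1, TwM_dc_eq a1] at b2 b3
    have e : (c2 (tw z), ht (tw z)) = dr (muS (‖c1 z‖ ^ 2)) (dc z) (c2 z, ht z) :=
      Prod.ext a2 a3
    rw [e, dr'_dr _ (TwM_dc h)] at b2 b3
    exact RSG.S4_ext (b1.trans a1) b2 b3

theorem TwM_unit_smooth {w : ℂ} (h : w ≠ 0) :
    ContDiffAt ℝ ∞ (fun w : ℂ => (starRingEnd ℂ) (w / (‖w‖ : ℂ))) w := by
  have h1 := RSG.GcM_norm_smooth (contDiffAt_id (𝕜 := ℝ) (n := ∞) (x := w)) h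
  have hne : ((‖w‖ : ℝ) : ℂ) ≠ 0 := by simpa using h
  have h2 : ContDiffAt ℝ ∞ (fun w : ℂ => w / (‖w‖ : ℂ)) w :=
    (contDiffAt_id (𝕜 := ℝ) (n := ∞) (x := w)).mul (h1.inv hne)
  exact RSG.GcM_conj_smooth.contDiffAt.comp w h2

theorem TwM_sm {T : ℝ → ℂ → ℂ × ℝ → ℂ × ℝ}
    (hT : ContDiff ℝ ∞ fun q : ℝ × ℂ × ℂ × ℝ => T q.1 q.2.1 q.2.2)
    (hn : ∀ s e, ‖e‖ = 1 → ∀ p, n3 (T s e p) = n3 p) {f : S4 → S4}
    (hf : ∀ z, c1 z ≠ 0 → f z = pS4 (c1 z) (T (muS (‖c1 z‖ ^ 2)) (dc z) (c2 z, ht z)).1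
      (T (muS (‖c1 z‖ ^ 2)) (dc z) (c2 z, ht z)).2)
    (hlow : ∀ z, ‖c1 z‖ ^ 2 ≤ 1 / 64 → f z = z) : ContMDiff (𝓡 4) (𝓡 4) ∞ f := by
  intro z
  have hc1 : ContMDiffAt (𝓡 4) 𝓘(ℝ, ℂ) ∞ c1 z := RSG.c1_smooth z
  by_cases h0 : c1 z = 0
  · have h1 : ∀ᶠ y in nhds z, ‖c1 y‖ ^ 2 < 1 / 64 := by
      have hc : ContinuousAt (fun y => ‖c1 y‖ ^ 2) z := (hc1.continuousAt.norm).pow 2
      refine hc.eventually (p := fun x => x < 1 / 64) ?_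
      show ∀ᶠ y in nhds (‖c1 z‖ ^ 2), y < 1 / 64
      rw [h0, norm_zero]
      exact gt_mem_nhds (by norm_num)
    exact contMDiffAt_id.congr_of_eventuallyEq (h1.mono fun y hy => hlow y hy.le)
  · have h1 : ∀ᶠ y in nhds z, c1 y ≠ 0 := hc1.continuousAt.eventually_ne h0
    have hmu : ContDiff ℝ ∞ muS := (contDiff_const.sub (CSG.stp_smooth _ _)).div_const _
    have hsq : ContDiff ℝ ∞ fun w : ℂ => ‖w‖ ^ 2 := contDiff_norm_sq ℝ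
    have hs : ContMDiffAt (𝓡 4) 𝓘(ℝ, ℝ) ∞ (fun y => muS (‖c1 y‖ ^ 2)) z :=
      ((hmu.comp hsq).contMDiff (c1 z)).comp z hc1
    have hd : ContMDiffAt (𝓡 4) 𝓘(ℝ, ℂ) ∞ dc z :=
      ContMDiffAt.comp (g := fun w : ℂ => (starRingEnd ℂ) (w / (‖w‖ : ℂ))) z
        (TwM_unit_smooth h0).contMDiffAt hc1
    have hp : ContMDiffAt (𝓡 4) 𝓘(ℝ, ℝ × ℂ × ℂ × ℝ) ∞
        (fun y => (muS (‖c1 y‖ ^ 2), dc y, c2 y, ht y)) z :=
      hs.prodMk_space (hd.prodMk_space ((RSG.c2_smooth z).prodMk_space (RSG.ht_smooth z)))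
    have hTc : ContMDiffAt (𝓡 4) 𝓘(ℝ, ℂ × ℝ) ∞
        (fun y => T (muS (‖c1 y‖ ^ 2)) (dc y) (c2 y, ht y)) z :=
      ContMDiffAt.comp z (hT.contMDiff _) hp
    have ha : ContMDiffAt (𝓡 4) 𝓘(ℝ, ℂ) ∞
        (fun y => (T (muS (‖c1 y‖ ^ 2)) (dc y) (c2 y, ht y)).1) z :=
      ContMDiffAt.comp z ((contDiff_fst (𝕜 := ℝ) (n := ∞) (E := ℂ) (F := ℝ)).contMDiff _) hTc
    have hb : ContMDiffAt (𝓡 4) 𝓘(ℝ, ℝ) ∞
        (fun y => (T (muS (‖c1 y‖ ^ 2)) (dc y) (c2 y, ht y)).2) z :=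
      ContMDiffAt.comp z ((contDiff_snd (𝕜 := ℝ) (n := ∞) (E := ℂ) (F := ℝ)).contMDiff _) hTc
    refine ContMDiffAt.congr_of_eventuallyEq (RSG.pS4_smooth hc1 ha hb ?_) (h1.mono fun y hy => hf y hy)
    have := TwM_sq (z := z) (hn (muS (‖c1 z‖ ^ 2)) (dc z) (TwM_dc h0) (c2 z, ht z))
    rw [this]
    exact one_pos

theorem tw_smooth : ContMDiff (𝓡 4) (𝓡 4) ∞ tw :=
  TwM_sm dr_smooth (fun s _ he p => dr_norm s he p) (fun _ h => TwM_def h) (fun _ h => tw_low h)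

theorem tw'_smooth : ContMDiff (𝓡 4) (𝓡 4) ∞ tw' :=
  TwM_sm dr'_smooth (fun s _ he p => dr'_norm s he p) (fun _ h => TwM_def' h) (fun _ h => tw'_low h)

end Pool.Agent.LNU
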